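import Pool.Agent.Lib.Enr905.Theory

/-!
# The kernels of the square zero extensions of `V_n`

The kernel of `V_m → V_n` for `m = n + s + 1` is isomorphic to `V_s`, by multiplication by the power
`n + 1` of a uniformizer. In particular the kernel of `V_{2n+1} → V_n` is isomorphic to `V_n`.
-/

open IsLocalRing CategoryTheory

namespace Pool.Agent.Lib.Enr905

variable {V : Type} [CommRing V] [IsLocalRing V]

/-- multiplication by the power `n + 1` of `π` -/
def mulPow {π : V} (hπ : maximalIdeal V = Ideal.span {π}) (n m : ℕ) :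
    V →ₗ[V] ↥(pw V n) ⧸ (pw V m).submoduleOf (pw V n) :=
  (Submodule.mkQ _).comp
    (LinearMap.toSpanSingleton V ↥(pw V n) ⟨π ^ (n + 1), by
      rw [pw, hπ, Ideal.span_singleton_pow]; exact Ideal.mem_span_singleton_self _⟩)

theorem mulPow_surjective {π : V} (hπ : maximalIdeal V = Ideal.span {π}) (n m : ℕ) :
    Function.Surjective (mulPow hπ n m) := by
  intro y
  obtain ⟨⟨y, hy⟩, rfl⟩ := Submodule.mkQ_surjective _ y
  have hy' := hy
  rw [pw, hπ, Ideal.span_singleton_pow, Ideal.mem_span_singleton] at hy'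
  obtain ⟨c, rfl⟩ := hy'
  refine ⟨c, ?_⟩
  simp only [mulPow, LinearMap.comp_apply, LinearMap.toSpanSingleton_apply]
  congr 1
  ext
  simp [mul_comm]

theorem ker_mulPow [IsDomain V] {π : V} (hπ : maximalIdeal V = Ideal.span {π}) (h0 : π ≠ 0)
    {n m s : ℕ} (h : m = n + s + 1) : LinearMap.ker (mulPow hπ n m) = pw V s := by
  ext x
  have h1 : m + 1 = (n + 1) + (s + 1) := by omega
  rw [LinearMap.mem_ker, mulPow, LinearMap.comp_apply, Submodule.mkQ_apply,
    Submodule.Quotient.mk_eq_zero]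
  change x * π ^ (n + 1) ∈ maximalIdeal V ^ (m + 1) ↔ x ∈ maximalIdeal V ^ (s + 1)
  rw [hπ, Ideal.span_singleton_pow, Ideal.span_singleton_pow, Ideal.mem_span_singleton,
    Ideal.mem_span_singleton, h1, pow_add, mul_comm x]
  exact mul_dvd_mul_iff_left (pow_ne_zero _ h0)

/-- `V_s` is the kernel of `V_{n+s+1} → V_n` -/
noncomputable def kerEquiv [IsDomain V] {π : V} (hπ : maximalIdeal V = Ideal.span {π})
    (h0 : π ≠ 0) {n m s : ℕ} (h : m = n + s + 1) :
    (V ⧸ pw V s) ≃ₗ[V] ↥(pw V n) ⧸ (pw V m).submoduleOf (pw V n) :=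
  (Submodule.quotEquivOfEq _ _ (ker_mulPow hπ h0 h).symm).trans
    ((mulPow hπ n m).quotKerEquivOfSurjective (mulPow_surjective hπ n m))

theorem kerEquiv_mk [IsDomain V] {π : V} (hπ : maximalIdeal V = Ideal.span {π}) (h0 : π ≠ 0)
    {n m s : ℕ} (h : m = n + s + 1) (x : V) :
    kerEquiv hπ h0 h (Submodule.mkQ _ x) = mulPow hπ n m x := rfl

/-- the isomorphisms are compatible with restriction -/
theorem kerEquiv_factor [IsDomain V] {π : V} (hπ : maximalIdeal V = Ideal.span {π}) (h0 : π ≠ 0)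
    {n m m' s s' : ℕ} (h : m = n + s + 1) (h' : m' = n + s' + 1) (hm : m' ≤ m) (hs : s' ≤ s)
    (x : V ⧸ pw V s) :
    Submodule.factor (ker_le n hm) (kerEquiv hπ h0 h x) =
      kerEquiv hπ h0 h' (Submodule.factor (pw_le hs) x) := by
  obtain ⟨x, rfl⟩ := Submodule.mkQ_surjective _ x
  change Submodule.factor (ker_le n hm) (mulPow hπ n m x) = mulPow hπ n m' x
  rfl

section
variable {k : Type} [Field k] {X : Surf k} (l : LiftData X)

/-- a uniformizer -/
theorem LiftData.exists_unif : ∃ π : l.V, maximalIdeal l.V = Ideal.span {π} ∧ π ≠ 0 := by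
  obtain ⟨π, hπ⟩ := IsDiscreteValuationRing.exists_irreducible l.V
  exact ⟨π, (IsDiscreteValuationRing.irreducible_iff_uniformizer π).1 hπ, hπ.ne_zero⟩

/-- the isomorphism of `V_s` with the kernel of `V_{n+s+1} → V_n` -/
noncomputable def LiftData.kerIso {n m s : ℕ} (h : m = n + s + 1) : l.Vn s ≅ l.Ker n m :=
  (kerEquiv l.exists_unif.choose_spec.1 l.exists_unif.choose_spec.2 h).toModuleIso

theorem LiftData.kerIso_kerMap {n m m' s : ℕ} (h : m = n + s + 1) (h' : m' = n + 0 + 1)
    (hm : m' ≤ m) : (l.kerIso h).hom ≫ l.kerMap n hm = l.vnMap s ≫ (l.kerIso h').hom := by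
  refine ModuleCat.hom_ext (LinearMap.ext fun x => ?_)
  exact kerEquiv_factor l.exists_unif.choose_spec.1 l.exists_unif.choose_spec.2 h h' hm
    (Nat.zero_le s) x

end

end Pool.Agent.Lib.Enr905
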