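import Pool.Agent.Lib.Enr905.Lattice

/-!
# The obstructions vanish, and the derived Torelli theorem

Lemma A: if the relative canonical bundle of the lift over `V_n` is not trivial, the obstruction
vanishes, because the obstruction to extend over the square zero extension of `V_n` with kernel `V_n`
would trivialise it. Lemma C: if `ω_X` is trivial, the first obstruction vanishes. Lemma D: if `a b = 2`
generates the maximal ideal, `a` is not in the square of the maximal ideal.
-/

namespace Pool.Agent.Lib.Enr905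

open Surfaces IsLocalRing

variable {k : Type} [Field k] {T : Surfaces} {G : Generic T} {X : T.S}

/-- Lemma A -/
theorem obstruction_zero (L : Lift k T G X) {Y : T.S} {φ : T.E Y X} {n : ℕ}
    (hY : T.NumTrivial Y (T.can Y)) (e : L.Ext φ n) (h : ¬ L.OmTriv n) : L.Van e := by
  by_contra h0
  exact h (L.serre e (L.yTriv_of_not_van e hY h0))

/-- Lemma C -/
theorem first_obstruction_zero [CharP k 2] (hX : EnrAt T X) (L : Lift k T G X) {Y : T.S}
    (φ : T.E Y X) (hY : T.NumTrivial Y (T.can Y)) (hK : T.can X = 0)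
    (h : ∀ D, T.NumTrivial X D → D = 0) : L.Van (L.first φ) := by
  obtain ⟨x⟩ := T.nonempty Y
  refine L.first_van hK φ hY x ?_
  obtain ⟨N, hN⟩ := det_square hX φ h x
  have hN' : T.det X (T.map φ (T.sky Y x)) = 2 • N := hN
  rw [hN', map_nsmul, ← Nat.cast_smul_eq_nsmul k, CharP.cast_eq_zero, zero_smul]

/-- the Brauer class vanishes, so an equivalence with vanishing obstruction extends -/
theorem exists_extension (hX : EnrAt T X) (L : Lift k T G X) {Y : T.S} {φ : T.E Y X}
    {n : ℕ} (e : L.Ext φ n) (h : L.Van e) : ∃ e' : L.Ext φ (n + 1), L.res e' = e :=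
  L.ext_of_van e h fun x => chi_P_odd φ (num_can φ hX.can_two) hX.num hX.chi_one x

/-- a compatible system of extensions -/
theorem exists_system (L : Lift k T G X) {Y : T.S} (φ : T.E Y X)
    (Q : ∀ n, L.Ext φ n → Prop) (h0 : Q 0 (L.first φ))
    (h : ∀ n e, Q n e → ∃ e' : L.Ext φ (n + 1), L.res e' = e ∧ Q (n + 1) e') :
    ∃ c : ∀ n, L.Ext φ n, ∀ n, L.res (c (n + 1)) = c n := by
  choose f hf hQ using h
  let c : ∀ n, {e : L.Ext φ n // Q n e} := fun n =>
    Nat.rec ⟨L.first φ, h0⟩ (fun n e => ⟨f n e.1 e.2, hQ n e.1 e.2⟩) n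
  exact ⟨fun n => (c n).1, fun n => hf n _ _⟩

/-- The main theorem for one surface, when `ω` is not trivial over `V_1`. -/
theorem torelli_of_lift [CharP k 2] (hX : EnrAt T X) (L : Lift k T G X) {Y : T.S}
    (φ : T.E Y X)
    (h : T.can X ≠ 0 ∨ ((∀ D, T.NumTrivial X D → D = 0) ∧ ∀ n, ¬ L.OmTriv (n + 1))) :
    T.Iso X Y := by
  have hY := num_can φ hX.can_two
  have hfirst : L.Van (L.first φ) := by
    by_cases hK : T.can X = 0
    · rcases h with h | h
      · exact absurd hK h
      · exact first_obstruction_zero hX L φ hY hK h.1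
    · exact obstruction_zero L hY _ fun h' => hK (L.omTriv_special 0 h')
  have hnext : ∀ n (e : L.Ext φ (n + 1)), L.Van e := by
    intro n e
    refine obstruction_zero L hY e ?_
    rcases h with h | h
    · exact fun h' => h (L.omTriv_special _ h')
    · exact h.2 n
  obtain ⟨c, hc⟩ := exists_system L φ (fun n e => L.Van e) hfirst
    (fun n e he => by
      obtain ⟨e', he'⟩ := exists_extension hX L e he
      exact ⟨e', he', hnext n e'⟩)
  obtain ⟨A, hA⟩ := T.exists_ample Y
  obtain ⟨m, hm, F', hF', hnum⟩ := num_multiple φ L.LiftK L.liftK_line L.liftK_sky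
    (T.map φ (T.line Y A))
  rw [AddEquiv.symm_apply_apply, T.det_line] at hnum
  have hample : T.Ample Y (T.det Y ((T.map φ).symm F')) := by
    refine T.ample_num Y A _ m hm hA fun M => ?_
    have := hnum M
    rw [map_sub, map_nsmul, AddMonoidHom.sub_apply, AddMonoidHom.nsmul_apply, sub_eq_zero,
      nsmul_eq_mul] at this
    exact this.symm
  obtain ⟨B, hB, hBD⟩ := L.algebraize c hc ⟨_, L.liftPic_det c hc F' hF', hample⟩
  exact G.matsusaka_mumford _ _ _ _ L.gen_red hB (G.torelli _ _ L.gen_enr hBD) hX.num hY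

/-- Lemma D when `2` generates the maximal ideal -/
theorem not_mem_sq {V : Type} [CommRing V] [IsLocalRing V] [IsDomain V] {a b : V} (ab : a * b = 2)
    (h2 : maximalIdeal V = Ideal.span {2}) (h0 : (2 : V) ≠ 0) : a ∉ maximalIdeal V ^ 2 := by
  intro ha
  rw [h2, Ideal.span_singleton_pow, Ideal.mem_span_singleton] at ha
  obtain ⟨c, rfl⟩ := ha
  have h3 : (2 : V) * (1 - 2 * (c * b)) = 0 := by linear_combination -ab
  have h5 : (1 : V) - 2 * (c * b) = 0 := (mul_eq_zero.1 h3).resolve_left h0
  have h6 : (2 : V) ∈ maximalIdeal V := by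
    rw [h2]; exact Ideal.mem_span_singleton_self _
  have h7 : (1 : V) ∈ maximalIdeal V := by
    have : (1 : V) = 2 * (c * b) := by linear_combination h5
    rw [this]
    exact Ideal.mul_mem_right _ _ h6
  exact (Ideal.ne_top_iff_one _).1 (maximalIdeal.isMaximal V).ne_top h7

end Pool.Agent.Lib.Enr905
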