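import Pool.Agent.Lib.Enr905.KGroup
import Pool.Agent.Lib.Enr905.KerIso
import Pool.Agent.Lib.Enr905.Main

/-!
# The abstract argument applied to the real objects
-/

open CategoryTheory AlgebraicGeometry Opposite IsLocalRing

namespace Pool.Agent.Lib.Enr905

variable {k : Type} [Field k]

/-- induction on the Grothendieck group -/
theorem Surf.K_induction (S : Surf k) {p : S.K → Prop} (h0 : p 0) (h : ∀ A, p (S.cls A))
    (hneg : ∀ x, p x → p (-x)) (hadd : ∀ x y, p x → p y → p (x + y)) (x : S.K) : p x := by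
  obtain ⟨y, rfl⟩ := QuotientAddGroup.mk_surjective x
  induction y using FreeAbelianGroup.induction_on with
  | zero => exact h0
  | of A => exact h A
  | neg A hA => exact hneg _ hA
  | add x y hx hy => exact hadd _ _ hx hy

namespace DualTheory

variable (N : DualTheory k)

/-- the Euler form on the Grothendieck group -/
noncomputable def chiK (S : Surf k) : S.K →+ S.K →+ ℤ :=
  S.lift (fun A => S.lift (fun B => S.chi (S.ι.obj A) (S.ι.obj B)) (N.chi_right S A).iso
      (N.chi_right S A).tri)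
    (by
      intro A A' h
      refine S.hom_ext fun B => ?_
      rw [S.lift_cls, S.lift_cls]
      exact (N.chi_left S B).iso A A' h)
    (by
      intro T hT
      refine S.hom_ext fun B => ?_
      rw [AddMonoidHom.add_apply, S.lift_cls, S.lift_cls, S.lift_cls]
      exact (N.chi_left S B).tri T hT)

theorem chiK_cls (S : Surf k) (A B : S.Db) :
    N.chiK S (S.cls A) (S.cls B) = S.chi (S.ι.obj A) (S.ι.obj B) := by
  rw [chiK, S.lift_cls, S.lift_cls]

/-- the rank on the Grothendieck group -/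
noncomputable def rkK (S : Surf k) : S.K →+ ℤ := S.lift N.rk (N.rk_add S).iso (N.rk_add S).tri

theorem rkK_cls (S : Surf k) (A : S.Db) : N.rkK S (S.cls A) = N.rk A := by
  rw [rkK, S.lift_cls]

/-- the determinant on the Grothendieck group -/
noncomputable def detK (S : Surf k) : S.K →+ N.Pic S :=
  S.lift N.det (N.det_add S).iso (N.det_add S).tri

theorem detK_cls (S : Surf k) (A : S.Db) : N.detK S (S.cls A) = N.det A := by
  rw [detK, S.lift_cls]

theorem dot_add' (S : Surf k) (D E E' : N.Pic S) : N.dot D (E + E') = N.dot D E + N.dot D E' := by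
  rw [N.dot_comm, N.dot_add, N.dot_comm E, N.dot_comm E']

/-- the intersection form -/
noncomputable def dotK (S : Surf k) : N.Pic S →+ N.Pic S →+ ℤ :=
  AddMonoidHom.mk' (fun D => AddMonoidHom.mk' (fun E => N.dot D E) (N.dot_add' S D)) (by
    intro D D'
    ext E
    exact N.dot_add D D' E)

theorem dotK_apply (S : Surf k) (D E : N.Pic S) : N.dotK S D E = N.dot D E := rfl

/-- a representative of a class -/
noncomputable def rep {S : Surf k} (D : N.Pic S) : S.Line := (N.cl_surj D).choose

theorem cl_rep {S : Surf k} (D : N.Pic S) : N.cl (N.rep D) = D := (N.cl_surj D).choose_spec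

/-- the class of a line bundle in the Grothendieck group -/
noncomputable def line {S : Surf k} (D : N.Pic S) : S.K := S.cls (N.rep D).L

theorem line_cl {S : Surf k} (L : S.Line) : N.line (N.cl L) = S.cls L.L := by
  obtain ⟨e⟩ := (N.cl_eq (N.rep (N.cl L)) L).1 (N.cl_rep _)
  exact S.cls_iso e

theorem nonempty_iso_one {S : Surf k} (L : S.Line) (h : N.cl L = 0) : Nonempty (L.D ≅ S.OD) := by
  obtain ⟨e⟩ := (N.cl_eq L (N.one S)).1 (h.trans (N.cl_one S).symm)
  obtain ⟨e'⟩ := N.one_iso S
  exact ⟨S.ι.mapIso e ≪≫ e'⟩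

theorem chi_zero_left {S : Surf k} (B : S.Db) :
    N.chiK S (N.line 0) (S.cls B) = S.chi S.OD (S.ι.obj B) := by
  rw [line, chiK_cls]
  obtain ⟨e⟩ := N.nonempty_iso_one (N.rep (0 : N.Pic S)) (N.cl_rep 0)
  exact S.chi_congr_left e _

theorem chi_zero_zero {S : Surf k} : N.chiK S (N.line 0) (N.line 0) = S.chi S.OD S.OD := by
  refine (N.chi_zero_left (N.rep (0 : N.Pic S)).L).trans ?_
  obtain ⟨e⟩ := N.nonempty_iso_one (N.rep (0 : N.Pic S)) (N.cl_rep 0)
  exact S.chi_congr_right _ e

/-- exact equivalences preserve the Euler form -/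
theorem chi_map {Y X : Surf k} (φ : Surf.Equiv Y X) (G F : Y.K) :
    N.chiK X (φ.map G) (φ.map F) = N.chiK Y G F := by
  have h1 : ∀ (G : Y.K) (B : Y.Db),
      N.chiK X (φ.map G) (φ.map (Y.cls B)) = N.chiK Y G (Y.cls B) := by
    intro G B
    have := Y.hom_ext (f := (((N.chiK X).flip (φ.map (Y.cls B))).comp φ.map.toAddMonoidHom))
      (g := (N.chiK Y).flip (Y.cls B)) (fun A => by
        change N.chiK X (φ.map (Y.cls A)) (φ.map (Y.cls B)) = N.chiK Y (Y.cls A) (Y.cls B)
        rw [φ.map_cls, φ.map_cls, N.chiK_cls, N.chiK_cls, φ.chi_obj])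
    exact DFunLike.congr_fun this G
  have := Y.hom_ext (f := (N.chiK X (φ.map G)).comp φ.map.toAddMonoidHom) (g := N.chiK Y G)
    (fun B => h1 G B)
  exact DFunLike.congr_fun this F

theorem ample_num {S : Surf k} (L M : S.Line) (m : ℕ) (hm : 0 < m) (hL : S.IsAmple L)
    (h : ∀ C, N.dot (N.cl M) C = m * N.dot (N.cl L) C) : S.IsAmple M := by
  have hm' : (0 : ℤ) < m := by exact_mod_cast hm
  refine ⟨?_, fun C h1 h2 => ?_⟩
  · rw [← N.dot_cl, h, N.dot_comm, h, N.dot_cl]
    exact mul_pos hm' (mul_pos hm' hL.1)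
  · rw [← N.dot_cl, h, N.dot_cl]
    exact mul_pos hm' (hL.2 C h1 h2)

theorem rrK {S : Surf k} (G F : S.K) : N.chiK S G F
    = N.rkK S G * N.chiK S (N.line 0) F + N.rkK S F * N.chiK S (N.line 0) G
      - N.dotK S (N.detK S G) (N.detK S F) + N.rkK S F * N.dotK S (N.cl (N.w S)) (N.detK S G)
      - N.rkK S G * N.rkK S F * N.chiK S (N.line 0) (N.line 0) := by
  refine S.K_induction (p := fun G => N.chiK S G F
    = N.rkK S G * N.chiK S (N.line 0) F + N.rkK S F * N.chiK S (N.line 0) G
      - N.dotK S (N.detK S G) (N.detK S F) + N.rkK S F * N.dotK S (N.cl (N.w S)) (N.detK S G)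
      - N.rkK S G * N.rkK S F * N.chiK S (N.line 0) (N.line 0)) ?_ ?_ ?_ ?_ G
  · simp
  · intro A
    refine S.K_induction (p := fun F => N.chiK S (S.cls A) F
      = N.rkK S (S.cls A) * N.chiK S (N.line 0) F + N.rkK S F * N.chiK S (N.line 0) (S.cls A)
        - N.dotK S (N.detK S (S.cls A)) (N.detK S F)
        + N.rkK S F * N.dotK S (N.cl (N.w S)) (N.detK S (S.cls A))
        - N.rkK S (S.cls A) * N.rkK S F * N.chiK S (N.line 0) (N.line 0)) ?_ ?_ ?_ ?_ F
    · simp
    · intro B
      rw [N.chiK_cls, N.rkK_cls, N.rkK_cls, N.detK_cls, N.detK_cls, N.chi_zero_left,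
        N.chi_zero_left, N.chi_zero_zero]
      exact N.rr A B
    · intro x hx
      simp only [map_neg]
      rw [hx]
      ring
    · intro x y hx hy
      simp only [map_add]
      rw [hx, hy]
      ring
  · intro x hx
    simp only [map_neg, AddMonoidHom.neg_apply]
    rw [hx]
    ring
  · intro x y hx hy
    simp only [map_add, AddMonoidHom.add_apply]
    rw [hx, hy]
    ring

/-- the numerical and derived theory of the smooth projective surfaces over `k` -/
noncomputable def toSurfaces : Surfaces.{1, 0, 1, 1, 1} where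
  S := Surf k
  Iso := Surf.Iso
  Pt := Surf.Pt
  K := Surf.K
  Pic := N.Pic
  chi := N.chiK
  dot := N.dotK
  rk := N.rkK
  det := N.detK
  line _ D := N.line D
  sky S x := S.cls (N.sky x)
  can S := N.cl (N.w S)
  Ample S D := ∃ L : S.Line, N.cl L = D ∧ S.IsAmple L
  E := Surf.Equiv
  map := Surf.Equiv.map
  nonempty := N.pt
  rk_line S D := by rw [line, N.rkK_cls]; exact N.rk_line _
  det_line S D := by rw [line, N.detK_cls, N.det_line]; exact N.cl_rep D
  rk_sky S x := by rw [N.rkK_cls]; exact N.rk_sky x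
  det_sky S x := by rw [N.detK_cls]; exact N.det_sky x
  chi_sky S x := by rw [N.chi_zero_left]; exact N.chi_sky x
  dot_comm S D D' := N.dot_comm D D'
  rr_line S D := by
    have h := N.rr_line (N.rep D)
    rw [N.cl_rep] at h
    have h2 : N.chiK S (N.line 0) (N.line D) = S.chi S.OD (N.rep D).D :=
      N.chi_zero_left (N.rep D).L
    rw [N.chi_zero_zero, h2]
    exact h
  rr S G F := N.rrK G F
  exists_ample S := by
    obtain ⟨L, hL⟩ := N.exists_ample S
    exact ⟨N.cl L, L, rfl, hL⟩
  ample_num S A B m hm := by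
    rintro ⟨L, rfl, hL⟩ h
    refine ⟨N.rep B, N.cl_rep B, N.ample_num L (N.rep B) m hm hL fun C => ?_⟩
    rw [N.cl_rep]
    exact h C
  chi_map := N.chi_map
  can_map φ n := N.order _ _ ⟨φ⟩ n

theorem num_iff (X : Surf k) :
    (∀ D, N.dotK X (N.cl (N.w X)) D = 0) ↔ ∃ w, X.IsCan w ∧ ∀ L, X.inter w L = 0 := by
  constructor
  · intro h
    exact ⟨N.w X, N.w_can X, fun L => by rw [← N.dot_cl]; exact h _⟩
  · rintro ⟨w, hw, h⟩ D
    rw [dotK_apply, ← N.cl_rep D, ← N.cl_w w hw, N.dot_cl, h]

theorem dot_sub_two {S : Surf k} (D M : N.Pic S) (h : ∀ L, N.dot D L = 2 * N.dot M L)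
    (L : N.Pic S) : N.dotK S (D - 2 • M) L = 0 := by
  rw [map_sub, map_nsmul, AddMonoidHom.sub_apply, AddMonoidHom.nsmul_apply, N.dotK_apply,
    N.dotK_apply, h L]
  simp

/-- a nonzero section trivialises the canonical bundle, if this is numerically trivial -/
theorem nonZero {Y : Surf k} (h : ∀ D, N.dotK Y (N.cl (N.w Y)) D = 0) {s : N.Sec Y}
    (hs : ¬ N.Zero s) : N.NonZero s := by
  refine N.iso_of_num (N.w Y) (N.one Y) s hs fun D => ?_
  have h2 : N.dotK Y 0 D = 0 := by rw [map_zero]; rfl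
  rw [N.cl_one]
  exact (h D).trans h2.symm

end DualTheory

/-- the special fibre of a lift is a specialization of the geometric generic fibre -/
theorem LiftData.specializes {X : Surf k} (l : LiftData X) :
    Nonempty (Specializes l.res l.gen X) := by
  refine ⟨{ W := l.V, emb := algebraMap l.V (AlgebraicClosure (FractionRing l.V)), resW := l.res,
            emb_inj := ?_, emb_alg := ?_, resW_alg := ?_, Z := l.Z, p := l.p, i := l.i,
            special := l.special, j := l.j, generic := l.generic }⟩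
  · rw [IsScalarTower.algebraMap_eq l.V (FractionRing l.V) (AlgebraicClosure (FractionRing l.V))]
    exact (algebraMap (FractionRing l.V) _).injective.comp (IsFractionRing.injective l.V _)
  · rfl
  · rfl

/-- the geometric generic fibres -/
noncomputable def generic (N : DualTheory k) (mm : MatsusakaMumford k) {X : Surf k}
    (l : LiftData X)
    (bm : DerivedTorelli (AlgebraicClosure (FractionRing l.V)) (IsEnriques _)) :
    Generic N.toSurfaces where
  SK := Surf (AlgebraicClosure (FractionRing l.V))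
  IsoK := Surf.Iso
  DEqK A B := Nonempty (Surf.Equiv A B)
  EnrK := IsEnriques _
  HasRed A X := Nonempty (Specializes l.res A X)
  torelli A B hA hBA := bm A B hA hBA
  matsusaka_mumford A B X Y h1 h2 h3 h4 h5 :=
    mm l.V l.res l.res_surj A B X Y h1 h2 h3 ((N.num_iff X).1 h4) ((N.num_iff Y).1 h5)

namespace Surf.Equiv

variable {Y X : Surf k} (φ : Surf.Equiv Y X) (N : DualTheory k)

theorem map_comp_ne_zero {A : Y.Db} (g : A ⟶ A⟦(2 : ℤ)⟧) (h : g ≠ 0) :
    φ.e.functor.map g ≫ (φ.e.functor.commShiftIso (2 : ℤ)).hom.app A ≠ 0 := by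
  intro h0
  apply h
  refine φ.e.functor.map_injective ?_
  rw [Functor.map_zero]
  refine (cancel_mono ((φ.e.functor.commShiftIso (2 : ℤ)).hom.app A)).1 ?_
  rw [Limits.zero_comp]
  exact h0

/-- if `ω` is trivial, the trace does not vanish on the value at a point of a section that trivialises
the canonical bundle -/
theorem trEv_ne_zero (h : N.Triv X) (x : Y.Pt) (s : N.Sec Y) (hs : N.NonZero s) :
    N.trEv φ x s ≠ 0 := by
  intro h0
  have h1 : N.ev x s ≠ 0 := N.ev_iso x s hs
  obtain ⟨f, hf⟩ := N.tr_dual h (N.P φ x) _ (φ.map_comp_ne_zero (N.ev x s) h1)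
  obtain ⟨f', hf'⟩ := φ.e.functor.map_surjective f
  obtain ⟨r, rfl⟩ := N.sky_end x f'
  apply hf
  have h2 : f = r • 𝟙 _ := by rw [← hf', Functor.map_smul, CategoryTheory.Functor.map_id]; rfl
  rw [h2, Linear.smul_comp, Category.id_comp]
  have h3 := map_smul (N.tr (N.P φ x)) r
    (φ.e.functor.map (N.ev x s) ≫ (φ.e.functor.commShiftIso (2 : ℤ)).hom.app (N.sky x))
  exact h3.trans ((congrArg (fun z => r • z) h0).trans (smul_zero r))

end Surf.Equiv

theorem ModFun.map_zero' {V : Type} [CommRing V] (F : ModFun V) {M M' : ModuleCat.{0} V}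
    (f : M ⟶ M') : F.map f 0 = 0 := by
  have := F.map_add f 0 0
  rw [add_zero] at this
  exact left_eq_add.1 this

theorem ModFun.eq_zero_of_iso {V : Type} [CommRing V] (F : ModFun V) {M M' : ModuleCat.{0} V}
    (f : M ≅ M') {x : F.obj M} (h : F.map f.hom x = 0) : x = 0 := by
  rw [← F.map_id x, ← f.hom_inv_id, F.map_comp, h, F.map_zero']

namespace ObTheory

variable {N : DualTheory k} {X : Surf k} {l : LiftData X} (d : ObTheory N l) {Y : Surf k}
  {φ : Surf.Equiv Y X} {n : ℕ} (e : d.Ext φ n)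

/-- the obstruction to extend `e` over `V_{n+1}` vanishes -/
def Van : Prop := ∀ h : Sq n (n + 1), d.ob e (n + 1) h = 0

/-- Lemma A, first half: if the obstruction does not vanish, the relative canonical bundle of `Y_n` is
trivial, because the kernel of `V_{2n+1} → V_n` is isomorphic to `V_n` -/
theorem yTriv_of_not_van (hY : ∀ D, N.dotK Y (N.cl (N.w Y)) D = 0) (h : ¬ d.Van e) :
    d.YTriv e := by
  obtain ⟨h1, h2⟩ := not_forall.1 h
  have h3 : Sq n (2 * n + 1) := ⟨by omega, le_rfl⟩
  have hm : n + 1 ≤ 2 * n + 1 := by omega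
  have e1 : 2 * n + 1 = n + n + 1 := by omega
  have e2 : n + 1 = n + 0 + 1 := by omega
  refine d.nakayama e ((d.H0 e).map (l.kerIso e1).inv (d.ob e (2 * n + 1) h3)) ?_
  refine N.nonZero hY fun h0 => h2 ?_
  have h4 := d.spec_inj e _ h0
  unfold ModFun.Zero at h4
  have h5 : (l.kerIso e1).inv ≫ l.vnMap n = l.kerMap n hm ≫ (l.kerIso e2).inv := by
    rw [Iso.inv_comp_eq, ← Category.assoc, l.kerIso_kerMap e1 e2 hm, Category.assoc,
      Iso.hom_inv_id, Category.comp_id]
  rw [← (d.H0 e).map_comp, h5, (d.H0 e).map_comp, d.ob_map e _ _ h3 h1 hm] at h4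
  exact (d.H0 e).eq_zero_of_iso (l.kerIso e2).symm h4

end ObTheory

namespace DefTheory

variable {N : DualTheory k} {X : Surf k} {l : LiftData X} (d : DefTheory N l) {Y : Surf k}

/-- Lemma C, first half: if `ω_X` is trivial and the obstruction of the determinant of some `P_x`
vanishes, then the first obstruction vanishes -/
theorem first_van (h : N.Triv X) (φ : Surf.Equiv Y X)
    (hY : ∀ D, N.dotK Y (N.cl (N.w Y)) D = 0) (x : Y.Pt)
    (hx : d.obPic (N.det (N.P φ x)) = 0) : d.toObTheory.Van (d.first φ) := by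
  intro h1
  by_contra h2
  have h3 := d.tr_ob φ h1 x
  rw [hx] at h3
  refine φ.trEv_ne_zero N h x _ (N.nonZero hY fun h0 => h2 ?_) h3
  exact (d.H0 (d.first φ)).eq_zero_of_iso d.unif (d.spec_inj _ _ h0)

theorem ext_of_van [CharP k 2] {φ : Surf.Equiv Y X} {n : ℕ} (e : d.Ext φ n)
    (h : d.toObTheory.Van e)
    (h' : ∀ x : Y.Pt, ¬ (2 : ℤ) ∣ X.chi X.OD (X.ι.obj (N.P φ x))) :
    ∃ e' : d.Ext φ (n + 1), d.restr e' = e := by
  have h1 : Sq n (n + 1) := ⟨by omega, by omega⟩
  obtain ⟨B, b, h2, h3⟩ := d.ext_of_ob e h1 (h h1)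
  obtain ⟨x⟩ := N.pt Y
  have h4 := h2 x
  have h5 := h' x
  generalize X.chi X.OD (X.ι.obj (N.P φ x)) = c at h4 h5
  obtain ⟨c', rfl⟩ : ∃ c', c = c' * 2 + 1 := ⟨c / 2, by omega⟩
  have h6 : (2 : ℤ) • b = 0 := by
    rw [← Int.cast_smul_eq_zsmul k]
    have : ((2 : ℤ) : k) = 0 := by
      have := CharP.cast_eq_zero k 2
      exact_mod_cast this
    rw [this, zero_smul]
  rw [add_smul, mul_smul, h6, smul_zero, zero_add, one_smul] at h4
  exact h3 h4

/-- the classes of the restrictions of the perfect complexes -/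
def liftK : AddSubgroup X.K := AddSubgroup.closure {x | ∃ F, d.LiftOb F ∧ x = X.cls F}

theorem liftPic_detK {φ : Surf.Equiv Y X}
    (c : {c : ∀ n, d.Ext φ n // ∀ n, d.restr (c (n + 1)) = c n}) (F : X.K) (hF : F ∈ d.liftK) :
    N.detK Y (φ.map.symm F) ∈ d.LiftPic c := by
  have h : ∀ F : X.Db, φ.map.symm (X.cls F) = Y.cls (φ.e.inverse.obj F) := fun F =>
    φ.mapK'_cls F
  unfold liftK at hF
  induction hF using AddSubgroup.closure_induction with
  | mem x hx =>
    obtain ⟨F, hF, rfl⟩ := hx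
    rw [h, N.detK_cls]
    exact d.liftPic_det c F hF
  | zero => rw [map_zero, map_zero]; exact zero_mem _
  | add x y _ _ hx hy => rw [map_add, map_add]; exact add_mem hx hy
  | neg x _ hx => rw [map_neg, map_neg]; exact neg_mem hx

end DefTheory

theorem enrAt {N : DualTheory k} (E : EnriquesFacts N) {X : Surf k} (hX : IsEnriques k X) :
    EnrAt N.toSurfaces X where
  chi_one := N.chi_zero_zero.trans (E.chi_one X hX)
  num := (N.num_iff X).2 hX.2.1
  can_two := (two_nsmul _).trans (E.can_two X hX)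
  unimod D hD := by
    obtain ⟨M, hM⟩ := E.unimod X hX D hD
    exact ⟨M, fun L => N.dot_sub_two D M hM L⟩

/-- the deformation theory along a lift -/
noncomputable def DefTheory.toLift [CharP k 2] {N : DualTheory k} (E : EnriquesFacts N)
    {X : Surf k} {l : LiftData X} (d : DefTheory N l) (mm : MatsusakaMumford k)
    (bm : DerivedTorelli (AlgebraicClosure (FractionRing l.V)) (IsEnriques _))
    (hX : IsEnriques k X) : Lift k N.toSurfaces (generic N mm l bm) X where
  gen := l.gen
  OmTriv := d.OmTriv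
  Ext := d.Ext
  first := d.first
  res := d.restr
  YTriv := d.YTriv
  Van e := d.toObTheory.Van e
  H2 := X.H2
  grpH2 := inferInstance
  modH2 := inferInstance
  obPic := d.obPic
  LiftK := d.liftK
  LiftPic c hc := d.LiftPic ⟨c, hc⟩
  gen_enr := E.gen_enr X hX l
  gen_red := l.specializes
  omTriv_special := d.omTriv_special
  serre := d.serre
  ext_of_van := fun {Y : Surf k} φ n e h h' => by
    refine d.ext_of_van e h fun x => ?_
    have := h' x
    change ¬ (2 : ℤ) ∣ N.chiK X (N.line 0) (φ.map (Y.cls (N.sky x))) at this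
    rw [φ.map_cls, N.chi_zero_left] at this
    exact this
  yTriv_of_not_van := fun e hY h => d.toObTheory.yTriv_of_not_van e hY h
  first_van := fun h {Y : Surf k} φ hY x hx => by
    refine d.first_van h φ hY x ?_
    change d.obPic (N.detK X (φ.map (Y.cls (N.sky x)))) = 0 at hx
    rw [φ.map_cls, N.detK_cls] at hx
    exact hx
  liftK_line D := by
    obtain ⟨m, hm, h⟩ := d.liftOb_line hX D
    exact ⟨m, hm, AddSubgroup.subset_closure ⟨_, h (N.rep (m • D)) (N.cl_rep _), rfl⟩⟩
  liftK_sky := by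
    obtain ⟨x, hx⟩ := d.liftOb_sky
    exact ⟨x, AddSubgroup.subset_closure ⟨_, hx, rfl⟩⟩
  liftPic_det c hc F hF := d.liftPic_detK ⟨c, hc⟩ F hF
  algebraize c hc h := by
    refine d.algebraize ⟨c, hc⟩ ?_
    obtain ⟨A, hA, L, rfl, hL⟩ := h
    exact ⟨L, hA, hL⟩

/-- the theorem for one surface with a lift -/
theorem torelli_real [CharP k 2] {N : DualTheory k} (E : EnriquesFacts N)
    (mm : MatsusakaMumford k)
    (bm : ∀ (K : Type) [Field K] [IsAlgClosed K] [CharZero K], DerivedTorelli K (IsEnriques K))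
    {X : Surf k} (hX : IsEnriques k X) {l : LiftData X} (d : DefTheory N l)
    (h : ¬ N.Triv X ∨ (N.Triv X ∧ ∃ a, TateOort d a ∧ a ∉ l.I 1)) {Y : Surf k}
    (hY : Nonempty (Surf.Equiv Y X)) : X.Iso Y := by
  obtain ⟨φ⟩ := hY
  have : CharZero (FractionRing l.V) := inferInstance
  have : CharZero (AlgebraicClosure (FractionRing l.V)) := inferInstance
  have hbm := bm (AlgebraicClosure (FractionRing l.V))
  refine torelli_of_lift (enrAt E hX) (d.toLift E mm hbm hX) φ ?_
  rcases h with h | ⟨h0, a, ha, h2⟩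
  · exact Or.inl h
  · refine Or.inr ⟨E.pic_tau X hX h0, fun n hn => h2 ?_⟩
    exact pw_le (by omega : 1 ≤ n + 1) (ha.2 (n + 1) hn)

end Pool.Agent.Lib.Enr905
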