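import Mathlib

/-!
# The abstract form of the argument

`Surfaces` is the numerical and derived theory of a class of surfaces, `Generic` the same for the
geometric generic fibres of lifts, `Lift` a lift of a surface `X` with the deformation theory of the
derived equivalences `D^b(Y) ≅ D^b(X)` along the lift. These structures are filled with the real objects
in `Bridge`.
-/

namespace Pool.Agent.Lib.Enr905

universe u₁ u₂ u₃ u₄ u₅

set_option linter.checkUnivs false

/-- Smooth projective surfaces over an algebraically closed field. -/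
structure Surfaces where
  /-- the smooth projective (connected) surfaces -/
  S : Type u₁
  /-- isomorphism -/
  Iso : S → S → Prop
  /-- the closed points -/
  Pt : S → Type u₂
  /-- the Grothendieck group of the bounded derived category -/
  K : S → Type u₃
  /-- the Picard group, written additively -/
  Pic : S → Type u₄
  [grpK : ∀ X, AddCommGroup (K X)]
  [grpPic : ∀ X, AddCommGroup (Pic X)]
  /-- the Euler form `∑ (-1)^i dim Ext^i(F, G)` -/
  chi : ∀ X, K X →+ K X →+ ℤ
  /-- the intersection form -/
  dot : ∀ X, Pic X →+ Pic X →+ ℤ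
  /-- the rank -/
  rk : ∀ X, K X →+ ℤ
  /-- the determinant -/
  det : ∀ X, K X →+ Pic X
  /-- the class of a line bundle -/
  line : ∀ X, Pic X → K X
  /-- the class of the skyscraper sheaf of a point -/
  sky : ∀ X, Pt X → K X
  /-- the canonical bundle -/
  can : ∀ X, Pic X
  /-- ample line bundles -/
  Ample : ∀ X, Pic X → Prop
  /-- equivalences `D^b(Y) → D^b(X)`; `E Y X` -/
  E : S → S → Type u₅
  /-- the action on Grothendieck groups -/
  map : ∀ {Y X}, E Y X → (K Y ≃+ K X)
  /-- there are closed points -/
  nonempty : ∀ X, Nonempty (Pt X)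
  rk_line : ∀ X (D : Pic X), rk X (line X D) = 1
  det_line : ∀ X (D : Pic X), det X (line X D) = D
  rk_sky : ∀ X (x : Pt X), rk X (sky X x) = 0
  det_sky : ∀ X (x : Pt X), det X (sky X x) = 0
  chi_sky : ∀ X (x : Pt X), chi X (line X 0) (sky X x) = 1
  dot_comm : ∀ X (D D' : Pic X), dot X D D' = dot X D' D
  /-- Riemann-Roch for line bundles -/
  rr_line : ∀ X (D : Pic X), 2 * (chi X (line X 0) (line X D) - chi X (line X 0) (line X 0))
    = dot X D D - dot X (can X) D
  /-- Hirzebruch-Riemann-Roch for the Euler form -/
  rr : ∀ X (G F : K X), chi X G F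
    = rk X G * chi X (line X 0) F + rk X F * chi X (line X 0) G - dot X (det X G) (det X F)
      + rk X F * dot X (can X) (det X G) - rk X G * rk X F * chi X (line X 0) (line X 0)
  /-- a projective surface has an ample line bundle -/
  exists_ample : ∀ X, ∃ A, Ample X A
  /-- ampleness is numerical (Nakai-Moishezon) -/
  ample_num : ∀ X (A B : Pic X) (m : ℕ), 0 < m → Ample X A →
    (∀ L, dot X B L = m * dot X A L) → Ample X B
  /-- equivalences preserve the Euler form -/
  chi_map : ∀ {Y X} (φ : E Y X) (G F : K Y), chi X (map φ G) (map φ F) = chi Y G F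
  /-- equivalences commute with the Serre functors -/
  can_map : ∀ {Y X}, E Y X → ∀ n : ℕ, n • can Y = 0 ↔ n • can X = 0
attribute [instance] Surfaces.grpK Surfaces.grpPic

namespace Surfaces

variable (T : Surfaces)

/-- numerically trivial line bundles -/
def NumTrivial (X : T.S) (D : T.Pic X) : Prop := ∀ L, T.dot X D L = 0

end Surfaces

/-- The numerical facts on an Enriques surface `X` in characteristic 2. -/
structure EnrAt (T : Surfaces) (X : T.S) : Prop where
  /-- `χ(O_X) = 1` -/
  chi_one : T.chi X (T.line X 0) (T.line X 0) = 1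
  /-- `ω_X` is numerically trivial -/
  num : T.NumTrivial X (T.can X)
  /-- `ω_X` is 2-torsion -/
  can_two : 2 • T.can X = 0
  /-- `Num(X)` is unimodular -/
  unimod : ∀ D : T.Pic X, (∀ L, (2 : ℤ) ∣ T.dot X D L) → ∃ N : T.Pic X, T.NumTrivial X (D - 2 • N)

/-- Smooth projective surfaces over an algebraic closure of the fraction field of a complete
discrete valuation ring `V` of characteristic 0 with residue field `k`. -/
structure Generic (T : Surfaces) where
  /-- the smooth projective surfaces over the algebraic closure of `Frac V` -/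
  SK : Type u₁
  /-- isomorphism -/
  IsoK : SK → SK → Prop
  /-- equivalence of the bounded derived categories -/
  DEqK : SK → SK → Prop
  /-- Enriques surfaces -/
  EnrK : SK → Prop
  /-- `HasRed A X`: over a finite extension of `V` there is a smooth projective scheme with geometric
  generic fibre `A` and special fibre `X` -/
  HasRed : SK → T.S → Prop
  /-- Bridgeland-Maciocia 2001: derived Torelli for Enriques surfaces in characteristic 0 -/
  torelli : ∀ A B, EnrK A → DEqK B A → IsoK A B
  /-- Matsusaka-Mumford 1964 and the uniqueness of minimal models -/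
  matsusaka_mumford : ∀ A B X Y, HasRed A X → HasRed B Y → IsoK A B →
    T.NumTrivial X (T.can X) → T.NumTrivial Y (T.can Y) → T.Iso X Y

/-- A lift of `X` over a complete discrete valuation ring `V` of characteristic 0 with residue field
`k`, and the deformation theory of the equivalences `D^b(Y) → D^b(X)` along the lift. `V_n` is `V` modulo
the power `n + 1` of the maximal ideal. -/
structure Lift (k : Type) [Field k] (T : Surfaces) (G : Generic T) (X : T.S) where
  /-- the geometric generic fibre -/
  gen : G.SK
  /-- `OmTriv n`: the relative canonical bundle of the lift over `V_n` is trivial -/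
  OmTriv : ℕ → Prop
  /-- the extensions of the equivalence over `V_n`: a smooth `Y_n` over `V_n` with special fibre `Y` and
  a relative Fourier-Mukai equivalence with the lift of `X` over `V_n` -/
  Ext : ∀ {Y}, T.E Y X → ℕ → Type u₂
  /-- the equivalence itself -/
  first : ∀ {Y} (φ : T.E Y X), Ext φ 0
  /-- restriction -/
  res : ∀ {Y} {φ : T.E Y X} {n : ℕ}, Ext φ (n + 1) → Ext φ n
  /-- the relative canonical bundle of `Y_n` is trivial -/
  YTriv : ∀ {Y} {φ : T.E Y X} {n : ℕ}, Ext φ n → Prop
  /-- the obstruction to extend `e` from `V_n` to `V_{n+1}` vanishes -/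
  Van : ∀ {Y} {φ : T.E Y X} {n : ℕ}, Ext φ n → Prop
  /-- `H^2(X, O_X)`, tensored with the cotangent space of `V` -/
  H2 : Type u₃
  [grpH2 : AddCommGroup H2]
  [modH2 : Module k H2]
  /-- the obstruction to extend a line bundle over `V_1` -/
  obPic : T.Pic X →+ H2
  /-- the classes of the restrictions to `X` of the perfect complexes on the lift -/
  LiftK : AddSubgroup (T.K X)
  /-- for a compatible system of extensions, the classes of the line bundles on `Y` that extend
  compatibly to all `Y_n` -/
  LiftPic : ∀ {Y} {φ : T.E Y X} (c : ∀ n, Ext φ n), (∀ n, res (c (n + 1)) = c n) →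
    AddSubgroup (T.Pic Y)
  /-- the geometric generic fibre of a lift of an Enriques surface is an Enriques surface -/
  gen_enr : G.EnrK gen
  gen_red : G.HasRed gen X
  /-- restriction of the relative canonical bundle to `X` -/
  omTriv_special : ∀ n, OmTriv n → T.can X = 0
  /-- compatibility with the relative Serre functors -/
  serre : ∀ {Y} {φ : T.E Y X} {n : ℕ} (e : Ext φ n), YTriv e → OmTriv n
  /-- if the obstruction vanishes, then `Y_n` extends over `V_{n+1}` and the kernel extends as a twisted
  complex; its Brauer class is 2-torsion, and killed by the rank `χ(O_X, P_x)` of the twisted complex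
  `Rp_* P` -/
  ext_of_van : ∀ {Y} {φ : T.E Y X} {n : ℕ} (e : Ext φ n), Van e →
    (∀ x, ¬ (2 : ℤ) ∣ T.chi X (T.line X 0) (T.map φ (T.sky Y x))) → ∃ e' : Ext φ (n + 1), res e' = e
  /-- the obstruction over `V_{2n+1}` is a section of the dual of the relative canonical bundle of `Y_n` -/
  yTriv_of_not_van : ∀ {Y} {φ : T.E Y X} {n : ℕ} (e : Ext φ n), T.NumTrivial Y (T.can Y) →
    ¬ Van e → YTriv e
  /-- if `ω_X` is trivial, the trace `Ext^2(P_x, P_x) → H^2(X, O_X)` is injective, and the trace of the
  obstruction of `P_x` is the obstruction of its determinant -/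
  first_van : T.can X = 0 → ∀ {Y} (φ : T.E Y X), T.NumTrivial Y (T.can Y) → ∀ x : T.Pt Y,
    obPic (T.det X (T.map φ (T.sky Y x))) = 0 → Van (first φ)
  /-- a multiple of every line bundle extends to the lift (`ρ = b₂ = 10` on both fibres) -/
  liftK_line : ∀ N : T.Pic X, ∃ m : ℕ, 0 < m ∧ T.line X (m • N) ∈ LiftK
  /-- the lift has a section -/
  liftK_sky : ∃ x : T.Pt X, T.sky X x ∈ LiftK
  /-- determinants of extended complexes extend -/
  liftPic_det : ∀ {Y} {φ : T.E Y X} (c : ∀ n, Ext φ n) (hc : ∀ n, res (c (n + 1)) = c n),
    ∀ F ∈ LiftK, T.det Y ((T.map φ).symm F) ∈ LiftPic c hc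
  /-- Grothendieck existence: if an ample line bundle of `Y` extends, the formal scheme and the kernel
  are algebraic -/
  algebraize : ∀ {Y} {φ : T.E Y X} (c : ∀ n, Ext φ n) (hc : ∀ n, res (c (n + 1)) = c n),
    (∃ A ∈ LiftPic c hc, T.Ample Y A) → ∃ B : G.SK, G.HasRed B Y ∧ G.DEqK B gen

attribute [instance] Lift.grpH2 Lift.modH2

end Pool.Agent.Lib.Enr905
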