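import Pool.Agent.Lib.Enr905.Linear

/-!
# The bounded derived category of coherent sheaves, Enriques surfaces, derived Torelli
-/

open CategoryTheory AlgebraicGeometry

namespace Pool.Agent.Lib.Enr905

attribute [local instance] HasDerivedCategory.standard

variable {k : Type} [Field k] (S : Surf k)

/-- the derived category of `O_X`-modules -/
def Surf.D : Type 1 := DerivedCategory S.X.Modules

@[instance_reducible, instance]
noncomputable def Surf.catD : Category.{1} S.D :=
  (inferInstance : Category (DerivedCategory S.X.Modules))

@[instance_reducible, instance]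
noncomputable def Surf.preD : Preadditive S.D :=
  (inferInstance : Preadditive (DerivedCategory S.X.Modules))

@[instance_reducible, instance]
noncomputable def Surf.linD : Linear k S.D :=
  (inferInstance : Linear k (DerivedCategory S.X.Modules))

@[instance_reducible, instance]
noncomputable def Surf.shiftD : HasShift S.D ℤ :=
  (inferInstance : HasShift (DerivedCategory S.X.Modules) ℤ)

/-- the distinguished triangles -/
def Surf.dist : Set (Pretriangulated.Triangle S.D) :=
  Pretriangulated.distinguishedTriangles (C := DerivedCategory S.X.Modules)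

/-- an `O_X`-module as a complex in degree 0 -/
noncomputable def Surf.single : S.X.Modules ⥤ S.D := DerivedCategory.singleFunctor S.X.Modules 0

/-- the cohomology sheaves of a complex -/
noncomputable def Surf.coh (i : ℤ) : S.D ⥤ S.X.Modules :=
  DerivedCategory.homologyFunctor S.X.Modules i

/-- the structure sheaf -/
noncomputable def Surf.O : S.X.Modules := SheafOfModules.unit S.X.ringCatSheaf

/-- `X` is covered by open subsets `Spec R` on which `M` is the sheaf of an `R`-module `N` with the
property `P` -/
def Surf.Loc (P : ∀ R : CommRingCat.{0}, ModuleCat.{0} R → Prop) (M : S.X.Modules) : Prop :=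
  ∀ x : S.X, ∃ (R : CommRingCat.{0}) (j : Spec R ⟶ S.X) (_ : IsOpenImmersion j)
    (N : ModuleCat.{0} R), x ∈ Set.range j ∧ P R N ∧
      Nonempty ((Scheme.Modules.restrictFunctor j).obj M ≅ tilde N)

/-- coherent sheaves -/
def Surf.IsCoh (M : S.X.Modules) : Prop := S.Loc (fun R N => Module.Finite R N) M

/-- invertible sheaves -/
def Surf.IsInv (M : S.X.Modules) : Prop := S.Loc (fun R N => Nonempty (N ≅ ModuleCat.of R R)) M

theorem Surf.IsCoh.of_iso {S : Surf k} {M N : S.X.Modules} (h : S.IsCoh N) (e : M ≅ N) :
    S.IsCoh M := by
  intro x
  obtain ⟨R, j, hj, N', h1, h2, ⟨e'⟩⟩ := h x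
  exact ⟨R, j, hj, N', h1, h2, ⟨(Scheme.Modules.restrictFunctor j).mapIso e ≪≫ e'⟩⟩

/-- bounded complexes with coherent cohomology -/
def Surf.isDb : ObjectProperty S.D := fun A =>
  {i | ¬ Limits.IsZero ((S.coh i).obj A)}.Finite ∧ ∀ i, S.IsCoh ((S.coh i).obj A)

theorem Surf.isDb_shift : S.isDb.IsStableUnderShift ℤ where
  isStableUnderShiftBy n :=
    { le_shift := by
        rintro A ⟨h, h'⟩
        have e : ∀ i, Nonempty ((S.coh i).obj (A⟦n⟧) ≅ (S.coh (n + i)).obj A) := fun i =>
          ⟨((DerivedCategory.homologyFunctor S.X.Modules 0).shiftIso n i (n + i) rfl).app A⟩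
        refine ⟨?_, fun i => ?_⟩
        · refine (h.preimage (f := fun i => n + i) (fun x _ y _ hxy => by
            have : n + x = n + y := hxy
            omega)).subset ?_
          intro i hi h0
          exact hi (h0.of_iso (e i).some)
        · exact (h' (n + i)).of_iso (e i).some }

attribute [local instance] Surf.isDb_shift

/-- the bounded derived category of coherent sheaves -/
def Surf.Db : Type 1 := S.isDb.FullSubcategory

@[instance_reducible, instance]
noncomputable def Surf.catDb : Category.{1} S.Db :=
  (inferInstance : Category S.isDb.FullSubcategory)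

@[instance_reducible, instance]
noncomputable def Surf.preDb : Preadditive S.Db :=
  (inferInstance : Preadditive S.isDb.FullSubcategory)

@[instance_reducible, instance]
noncomputable def Surf.linDb : Linear k S.Db :=
  (inferInstance : Linear k S.isDb.FullSubcategory)

@[instance_reducible, instance]
noncomputable def Surf.shiftDb : HasShift S.Db ℤ :=
  (inferInstance : HasShift S.isDb.FullSubcategory ℤ)

/-- the inclusion -/
noncomputable def Surf.ι : S.Db ⥤ S.D := S.isDb.ι

@[instance_reducible, instance]
noncomputable def Surf.commι : S.ι.CommShift ℤ := (inferInstance : S.isDb.ι.CommShift ℤ)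

/-- distinguished triangles of `D^b(X)` -/
def Surf.Dist (T : Pretriangulated.Triangle S.Db) : Prop := S.ι.mapTriangle.obj T ∈ S.dist

end Pool.Agent.Lib.Enr905
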