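import Pool.Agent.Lib.Enr905.Derived

/-!
# Enriques surfaces and the derived Torelli property
-/

open CategoryTheory AlgebraicGeometry

namespace Pool.Agent.Lib.Enr905

variable {k : Type} [Field k]

/-- isomorphism of surfaces over `k` -/
def Surf.Iso (X Y : Surf k) : Prop := ∃ e : X.X ≅ Y.X, e.hom ≫ Y.f = X.f

/-- exact `k`-linear equivalences `D^b(Y) → D^b(X)` -/
structure Surf.Equiv (Y X : Surf k) where
  /-- the equivalence -/
  e : Y.Db ≌ X.Db
  [comm : e.functor.CommShift ℤ]
  [comm' : e.inverse.CommShift ℤ]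
  [add : e.functor.Additive]
  [lin : e.functor.Linear k]
  exact : ∀ T, Y.Dist T → X.Dist (e.functor.mapTriangle.obj T)
  exact' : ∀ T, X.Dist T → Y.Dist (e.inverse.mapTriangle.obj T)

attribute [instance] Surf.Equiv.comm Surf.Equiv.comm' Surf.Equiv.add Surf.Equiv.lin

/-- a family of surfaces over `k` has the derived Torelli property -/
def DerivedTorelli (k : Type) [Field k] (F : Surf k → Prop) : Prop :=
  ∀ X Y : Surf k, F X → Nonempty (Surf.Equiv Y X) → X.Iso Y

section
variable (S : Surf k)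

/-- the structure sheaf as an object of the derived category -/
noncomputable def Surf.OD : S.D := S.single.obj S.O

/-- the group `Ext^i(A, B)` -/
def Surf.E (i : ℤ) (A B : S.D) : Type 1 := A ⟶ B⟦i⟧

@[instance_reducible, instance]
noncomputable def Surf.grpE (i : ℤ) (A B : S.D) : AddCommGroup (S.E i A B) :=
  (inferInstance : AddCommGroup (A ⟶ B⟦i⟧))

@[instance_reducible, instance]
noncomputable def Surf.modE (i : ℤ) (A B : S.D) : Module k (S.E i A B) :=
  (inferInstance : Module k (A ⟶ B⟦i⟧))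

/-- `χ(A, B) = ∑ (-1)^i dim Ext^i(A, B)` -/
noncomputable def Surf.chi (A B : S.D) : ℤ :=
  ∑ᶠ i : ℤ, ((i.negOnePow : ℤˣ) : ℤ) * (Module.finrank k (S.E i A B) : ℤ)

/-- line bundles, as objects of `D^b(X)` -/
structure Surf.Line where
  /-- the complex -/
  L : S.Db
  inv : ∃ M, S.IsInv M ∧ Nonempty (S.ι.obj L ≅ S.single.obj M)

/-- the line bundle as an object of the derived category -/
noncomputable def Surf.Line.D {S : Surf k} (L : S.Line) : S.D := S.ι.obj L.L

/-- the intersection number of two line bundles: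
`L · M = χ(-L) + χ(M) - χ(0) - χ(M - L)` -/
noncomputable def Surf.inter (L M : S.Line) : ℤ :=
  S.chi L.D S.OD + S.chi S.OD M.D - S.chi S.OD S.OD - S.chi L.D M.D

/-- the canonical bundle is characterised by Serre duality: `Hom(A, ω[2])` is dual to `Hom(O, A)` -/
def Surf.IsCan (w : S.Line) : Prop :=
  ∃ t : S.E 2 S.OD w.D →ₗ[k] k, ∀ A : S.Db,
    Function.Bijective fun (g : S.ι.obj A ⟶ w.D⟦(2 : ℤ)⟧) =>
      (t ∘ₗ (Linear.rightComp k S.OD g) : (S.OD ⟶ S.ι.obj A) →ₗ[k] k)

/-- `X` is minimal: every birational morphism to a surface is an isomorphism -/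
def Surf.IsMin : Prop :=
  ∀ (T : Surf k) (g : S.X ⟶ T.X), g ≫ T.f = S.f →
    (∃ U : T.X.Opens, (U : Set T.X).Nonempty ∧ IsIso (g ∣_ U)) → IsIso g

/-- `H^2(X, ℤ_3)` modulo torsion -/
abbrev Surf.H2free :=
  S.X.EllAdicCohomology 3 2 ⧸ AddCommGroup.torsion (S.X.EllAdicCohomology 3 2)

/-- the second Betti number of `X` is `n` (if the characteristic of `k` is not 3) -/
def Surf.HasBetti2 (n : ℕ) : Prop :=
  Nat.card (S.H2free ⧸ (zsmulAddGroupHom (α := S.H2free) 3).range) = 3 ^ n

end

/-- Enriques surfaces -/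
def IsEnriques (k : Type) [Field k] (S : Surf k) : Prop :=
  S.IsMin ∧ (∃ w, S.IsCan w ∧ ∀ L, S.inter w L = 0) ∧ S.HasBetti2 10

end Pool.Agent.Lib.Enr905
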