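import Pool.Agent.Lib.Enr905.Theory

/-!
# Grothendieck groups, and the action of an exact equivalence
-/

open CategoryTheory AlgebraicGeometry Opposite

namespace Pool.Agent.Lib.Enr905

variable {k : Type} [Field k]

/-- the relations of the Grothendieck group: isomorphic objects, distinguished triangles -/
def Surf.rel (S : Surf k) : AddSubgroup (FreeAbelianGroup S.Db) :=
  AddSubgroup.closure
    ({x | ∃ A B : S.Db, Nonempty (A ≅ B) ∧ x = FreeAbelianGroup.of A - FreeAbelianGroup.of B} ∪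
     {x | ∃ T : Pretriangulated.Triangle S.Db, S.Dist T ∧
       x = FreeAbelianGroup.of T.obj₂ - FreeAbelianGroup.of T.obj₁ - FreeAbelianGroup.of T.obj₃})

/-- the Grothendieck group of `D^b(X)` -/
abbrev Surf.K (S : Surf k) := FreeAbelianGroup S.Db ⧸ S.rel

/-- the class of a complex -/
def Surf.cls (S : Surf k) (A : S.Db) : S.K := QuotientAddGroup.mk (FreeAbelianGroup.of A)

theorem Surf.cls_iso (S : Surf k) {A B : S.Db} (e : A ≅ B) : S.cls A = S.cls B := by
  refine (QuotientAddGroup.eq_iff_sub_mem).2 (AddSubgroup.subset_closure (Or.inl ⟨A, B, ⟨e⟩, rfl⟩))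

theorem Surf.cls_dist (S : Surf k) {T : Pretriangulated.Triangle S.Db} (h : S.Dist T) :
    S.cls T.obj₂ = S.cls T.obj₁ + S.cls T.obj₃ := by
  have h1 : (QuotientAddGroup.mk (FreeAbelianGroup.of T.obj₂ - FreeAbelianGroup.of T.obj₁ -
      FreeAbelianGroup.of T.obj₃) : S.K) = 0 :=
    (QuotientAddGroup.eq_zero_iff _).2 (AddSubgroup.subset_closure (Or.inr ⟨T, h, rfl⟩))
  change S.cls T.obj₂ - S.cls T.obj₁ - S.cls T.obj₃ = 0 at h1
  rw [sub_sub, sub_eq_zero] at h1
  exact h1

/-- homomorphisms from the Grothendieck group -/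
def Surf.lift (S : Surf k) {M : Type*} [AddCommGroup M] (f : S.Db → M)
    (h1 : ∀ A B : S.Db, Nonempty (A ≅ B) → f A = f B)
    (h2 : ∀ T : Pretriangulated.Triangle S.Db, S.Dist T → f T.obj₂ = f T.obj₁ + f T.obj₃) :
    S.K →+ M :=
  QuotientAddGroup.lift S.rel (FreeAbelianGroup.lift f) (by
    unfold Surf.rel
    rw [AddSubgroup.closure_le]
    rintro x (⟨A, B, hAB, rfl⟩ | ⟨T, hT, rfl⟩)
    · simp [h1 A B hAB]
    · simp [h2 T hT])

theorem Surf.lift_cls (S : Surf k) {M : Type*} [AddCommGroup M] (f : S.Db → M) (h1 h2)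
    (A : S.Db) : S.lift f h1 h2 (S.cls A) = f A := by
  simp [Surf.lift, Surf.cls]

theorem Surf.hom_ext (S : Surf k) {M : Type*} [AddCommGroup M] {f g : S.K →+ M}
    (h : ∀ A, f (S.cls A) = g (S.cls A)) : f = g := by
  refine QuotientAddGroup.addMonoidHom_ext _ ?_
  exact FreeAbelianGroup.lift_ext _ _ fun A => h A

/-- the action of an exact equivalence on the Grothendieck groups -/
def Surf.Equiv.mapK {Y X : Surf k} (φ : Surf.Equiv Y X) : Y.K →+ X.K :=
  Y.lift (fun A => X.cls (φ.e.functor.obj A))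
    (fun _ _ ⟨e⟩ => X.cls_iso (φ.e.functor.mapIso e))
    (fun T hT => X.cls_dist (φ.exact T hT))

/-- the action of the inverse -/
def Surf.Equiv.mapK' {Y X : Surf k} (φ : Surf.Equiv Y X) : X.K →+ Y.K :=
  X.lift (fun A => Y.cls (φ.e.inverse.obj A))
    (fun _ _ ⟨e⟩ => Y.cls_iso (φ.e.inverse.mapIso e))
    (fun T hT => Y.cls_dist (φ.exact' T hT))

theorem Surf.Equiv.mapK_cls {Y X : Surf k} (φ : Surf.Equiv Y X) (A : Y.Db) :
    φ.mapK (Y.cls A) = X.cls (φ.e.functor.obj A) :=
  Y.lift_cls (fun A => X.cls (φ.e.functor.obj A)) _ _ A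

theorem Surf.Equiv.mapK'_cls {Y X : Surf k} (φ : Surf.Equiv Y X) (A : X.Db) :
    φ.mapK' (X.cls A) = Y.cls (φ.e.inverse.obj A) :=
  X.lift_cls (fun A => Y.cls (φ.e.inverse.obj A)) _ _ A

/-- the action of an exact equivalence on the Grothendieck groups -/
def Surf.Equiv.map {Y X : Surf k} (φ : Surf.Equiv Y X) : Y.K ≃+ X.K :=
  AddMonoidHom.toAddEquiv φ.mapK φ.mapK'
    (Y.hom_ext fun A => by
      change φ.mapK' (φ.mapK (Y.cls A)) = Y.cls A
      rw [φ.mapK_cls, φ.mapK'_cls]
      exact Y.cls_iso (φ.e.unitIso.symm.app A))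
    (X.hom_ext fun A => by
      change φ.mapK (φ.mapK' (X.cls A)) = X.cls A
      rw [φ.mapK'_cls, φ.mapK_cls]
      exact X.cls_iso (φ.e.counitIso.app A))

theorem Surf.Equiv.map_cls {Y X : Surf k} (φ : Surf.Equiv Y X) (A : Y.Db) :
    φ.map (Y.cls A) = X.cls (φ.e.functor.obj A) := by
  exact φ.mapK_cls A

open Functor in
/-- a linear fully faithful functor commuting with the shifts preserves the dimensions of the Hom
groups -/
theorem finrank_shift {C D : Type*} [Category* C] [Category* D] [Preadditive C] [Preadditive D]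
    [Linear k C] [Linear k D] [HasShift C ℤ] [HasShift D ℤ] (F : C ⥤ D) [F.Additive]
    [F.Linear k] [F.Full] [F.Faithful] [F.CommShift ℤ] (A B : C) (i : ℤ) :
    Module.finrank k (F.obj A ⟶ (F.obj B)⟦i⟧) = Module.finrank k (A ⟶ B⟦i⟧) := by
  let e₁ : (A ⟶ B⟦i⟧) ≃ₗ[k] (F.obj A ⟶ F.obj (B⟦i⟧)) :=
    LinearEquiv.ofBijective (F.mapLinearMap k) ⟨F.map_injective, F.map_surjective⟩
  let e₂ : (F.obj A ⟶ F.obj (B⟦i⟧)) ≃ₗ[k] (F.obj A ⟶ (F.obj B)⟦i⟧) :=
    Linear.homCongr k (Iso.refl _) ((F.commShiftIso i).app B)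
  exact ((e₁.trans e₂).finrank_eq).symm

attribute [local instance] HasDerivedCategory.standard

instance (S : Surf k) : S.ι.Additive := (inferInstance : S.isDb.ι.Additive)

instance (S : Surf k) : S.ι.Linear k := (inferInstance : S.isDb.ι.Linear k)

instance (S : Surf k) : S.ι.Full := (inferInstance : S.isDb.ι.Full)

instance (S : Surf k) : S.ι.Faithful := (inferInstance : S.isDb.ι.Faithful)

theorem Surf.Equiv.chi_obj {Y X : Surf k} (φ : Surf.Equiv Y X) (A B : Y.Db) :
    X.chi (X.ι.obj (φ.e.functor.obj A)) (X.ι.obj (φ.e.functor.obj B)) =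
      Y.chi (Y.ι.obj A) (Y.ι.obj B) := by
  unfold Surf.chi
  refine finsum_congr fun i => ?_
  congr 2
  have h1 := finrank_shift (k := k) φ.e.functor A B i
  have h2 := finrank_shift (k := k) Y.ι A B i
  have h3 := finrank_shift (k := k) X.ι (φ.e.functor.obj A) (φ.e.functor.obj B) i
  exact_mod_cast h3.trans (h1.trans h2.symm)

open Functor in
/-- the Euler form depends only on the isomorphism class of the first argument -/
theorem Surf.chi_congr_left (S : Surf k) {A A' : S.D} (e : A ≅ A') (B : S.D) :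
    S.chi A B = S.chi A' B := by
  unfold Surf.chi
  refine finsum_congr fun i => ?_
  congr 2
  exact_mod_cast (Linear.homCongr k e (Iso.refl (B⟦i⟧))).finrank_eq

open Functor in
/-- the Euler form depends only on the isomorphism class of the second argument -/
theorem Surf.chi_congr_right (S : Surf k) (A : S.D) {B B' : S.D} (e : B ≅ B') :
    S.chi A B = S.chi A B' := by
  unfold Surf.chi
  refine finsum_congr fun i => ?_
  congr 2
  exact_mod_cast (Linear.homCongr k (Iso.refl A) ((shiftFunctor S.D i).mapIso e)).finrank_eq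

end Pool.Agent.Lib.Enr905
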