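import Pool.Agent.Lib.Enr905.Core

/-!
# The class of the image of a skyscraper sheaf modulo 2

For an equivalence `φ : D^b(Y) → D^b(X)` with `X` an Enriques surface, `P_x = φ(k_x)` has even rank and
`c_1(P_x)` is divisible by 2 in `Num(X)`, and `χ(O_X, P_x)` is odd.
-/

namespace Pool.Agent.Lib.Enr905

open Surfaces

variable {T : Surfaces}

/-- the image of the class of a skyscraper sheaf -/
abbrev P {Y X : T.S} (φ : T.E Y X) (x : T.Pt Y) : T.K X := T.map φ (T.sky Y x)

/-- self-intersections are even if the canonical bundle is numerically trivial -/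
theorem even_self {X : T.S} (h : T.NumTrivial X (T.can X)) (D : T.Pic X) :
    (2 : ℤ) ∣ T.dot X D D := by
  have := T.rr_line X D
  rw [h D, sub_zero] at this
  exact ⟨_, this.symm⟩

/-- the Euler form against a skyscraper sheaf -/
theorem chi_sky' {X : T.S} (G : T.K X) (x : T.Pt X) :
    T.chi X G (T.sky X x) = T.rk X G := by
  rw [T.rr X G (T.sky X x), T.rk_sky, T.det_sky, T.chi_sky]
  simp

/-- the Euler form of a skyscraper sheaf against a class -/
theorem sky_chi {X : T.S} (F : T.K X) (x : T.Pt X) :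
    T.chi X (T.sky X x) F = T.rk X F := by
  rw [T.rr X (T.sky X x) F, T.rk_sky, T.det_sky, T.chi_sky]
  simp

/-- `χ(G, G) = rk(G)^2 χ(O)` modulo 2 -/
theorem chi_self {X : T.S} (h : T.NumTrivial X (T.can X)) (G : T.K X) :
    (2 : ℤ) ∣ T.chi X G G - T.rk X G * T.rk X G * T.chi X (T.line X 0) (T.line X 0) := by
  obtain ⟨c, hc⟩ := even_self h (T.det X G)
  rw [T.rr X G G, hc, h]
  exact ⟨T.rk X G * T.chi X (T.line X 0) G - c - T.rk X G * T.rk X G *
    T.chi X (T.line X 0) (T.line X 0), by ring⟩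

theorem num_can {Y X : T.S} (φ : T.E Y X) (h : 2 • T.can X = 0) : T.NumTrivial Y (T.can Y) := by
  intro L
  have h1 : 2 • T.can Y = 0 := (T.can_map φ 2).2 h
  have h2 : T.dot Y (2 • T.can Y) L = 0 := by rw [h1]; simp
  rw [map_nsmul, AddMonoidHom.nsmul_apply] at h2
  simpa using h2

/-- `χ(O_Y)` is odd -/
theorem chi_odd_source {Y X : T.S} (φ : T.E Y X) (hY : T.NumTrivial Y (T.can Y))
    (hX : T.chi X (T.line X 0) (T.line X 0) = 1) :
    ¬ (2 : ℤ) ∣ T.chi Y (T.line Y 0) (T.line Y 0) := by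
  intro h
  have h1 := chi_self hY ((T.map φ).symm (T.line X 0))
  have h2 : T.chi Y ((T.map φ).symm (T.line X 0)) ((T.map φ).symm (T.line X 0)) = 1 := by
    rw [← T.chi_map φ, AddEquiv.apply_symm_apply, hX]
  rw [h2] at h1
  obtain ⟨c, hc⟩ := h
  rw [hc] at h1
  obtain ⟨d, hd⟩ := h1
  generalize T.rk Y ((T.map φ).symm (T.line X 0)) = r at hd
  have : (1 : ℤ) = 2 * (d + r * r * c) := by linear_combination hd
  omega

/-- `χ(F, F) = χ(F, P_x)` modulo 2 for all classes `F` -/
theorem chi_self_P {Y X : T.S} (φ : T.E Y X) (hY : T.NumTrivial Y (T.can Y))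
    (hX : T.chi X (T.line X 0) (T.line X 0) = 1) (x : T.Pt Y) (F : T.K X) :
    (2 : ℤ) ∣ T.chi X F F - T.chi X F (P φ x) := by
  obtain ⟨G, rfl⟩ := (T.map φ).surjective F
  rw [T.chi_map, T.chi_map, chi_sky']
  have h1 := chi_self hY G
  have h2 := chi_odd_source φ hY hX
  generalize T.chi Y (T.line Y 0) (T.line Y 0) = c at h1 h2
  generalize T.chi Y G G = u at h1 ⊢
  generalize T.rk Y G = r at h1 ⊢
  have h3 : c % 2 = 1 := by omega
  obtain ⟨c', rfl⟩ : ∃ c', c = 2 * c' + 1 := ⟨c / 2, by omega⟩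
  have h4 : (2 : ℤ) ∣ r * r - r := by
    rcases Int.even_or_odd r with ⟨t, ht⟩ | ⟨t, ht⟩
    · exact ⟨r * t - t, by rw [ht]; ring⟩
    · exact ⟨r * t, by rw [ht]; ring⟩
  obtain ⟨p, hp⟩ := h1
  obtain ⟨q, hq⟩ := h4
  exact ⟨p + q + r * r * c', by linear_combination hp + hq⟩

/-- the rank of `P_x` is even -/
theorem rk_even {Y X : T.S} (φ : T.E Y X) (hY : T.NumTrivial Y (T.can Y))
    (hX : T.chi X (T.line X 0) (T.line X 0) = 1) (x : T.Pt Y) :
    (2 : ℤ) ∣ T.rk X (P φ x) := by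
  obtain ⟨y⟩ := T.nonempty X
  have := chi_self_P φ hY hX x (T.sky X y)
  rw [sky_chi, sky_chi, T.rk_sky, zero_sub, dvd_neg] at this
  exact this

/-- the determinant of `P_x` has even intersection with every line bundle -/
theorem det_even {Y X : T.S} (φ : T.E Y X) (hY : T.NumTrivial Y (T.can Y))
    (hK : T.NumTrivial X (T.can X)) (hX : T.chi X (T.line X 0) (T.line X 0) = 1) (x : T.Pt Y)
    (L : T.Pic X) : (2 : ℤ) ∣ T.dot X (T.det X (P φ x)) L := by
  have h0 := rk_even φ hY hX x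
  have h1 := chi_self_P φ hY hX x (T.line X L - T.line X 0)
  have hr : T.rk X (T.line X L - T.line X 0) = 0 := by
    rw [map_sub, T.rk_line, T.rk_line, sub_self]
  have hd : T.det X (T.line X L - T.line X 0) = L := by
    rw [map_sub, T.det_line, T.det_line, sub_zero]
  rw [T.rr X (T.line X L - T.line X 0) (T.line X L - T.line X 0),
    T.rr X (T.line X L - T.line X 0) (P φ x), hr, hd, hK L] at h1
  have h2 := even_self hK L
  rw [T.dot_comm]
  obtain ⟨p, hp⟩ := h0
  obtain ⟨q, hq⟩ := h1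
  obtain ⟨s, hs⟩ := h2
  rw [hp, hs] at hq
  generalize T.chi X (T.line X 0) (T.line X L - T.line X 0) = t at hq
  generalize T.dot X L (T.det X (P φ x)) = v at hq ⊢
  exact ⟨q + s + p * t, by linear_combination hq⟩

/-- `χ(O_X, P_x)` is odd -/
theorem chi_P_odd {Y X : T.S} (φ : T.E Y X) (hY : T.NumTrivial Y (T.can Y))
    (hK : T.NumTrivial X (T.can X)) (hX : T.chi X (T.line X 0) (T.line X 0) = 1) (x : T.Pt Y) :
    ¬ (2 : ℤ) ∣ T.chi X (T.line X 0) (P φ x) := by
  rintro ⟨c, hc⟩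
  obtain ⟨p, hp⟩ := rk_even φ hY hX x
  obtain ⟨q, hq⟩ := det_even φ hY hK hX x (T.det X (T.map φ (T.line Y 0)))
  have h1 : T.chi X (T.map φ (T.line Y 0)) (P φ x) = 1 := by rw [T.chi_map, T.chi_sky]
  rw [T.rr, hc, hp, T.dot_comm, hq, hK, hX] at h1
  generalize T.rk X (T.map φ (T.line Y 0)) = r at h1
  generalize T.chi X (T.line X 0) (T.map φ (T.line Y 0)) = t at h1
  have : (2 : ℤ) * (r * c + p * t - q - r * p) = 1 := by linear_combination h1
  omega

/-- if `Num(X)` is unimodular and `Pic^τ(X) = 0`, the determinant of `P_x` is a square -/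
theorem det_square {Y X : T.S} (hX : EnrAt T X) (φ : T.E Y X)
    (h : ∀ D, T.NumTrivial X D → D = 0) (x : T.Pt Y) :
    ∃ N : T.Pic X, T.det X (P φ x) = 2 • N := by
  obtain ⟨N, hN⟩ := hX.unimod (T.det X (P φ x))
    (det_even φ (num_can φ hX.can_two) hX.num hX.chi_one x)
  exact ⟨N, sub_eq_zero.1 (h _ hN)⟩

/-- for every `F` with multiples of its determinant in a subgroup containing a point, a positive
multiple of the determinant of `φ⁻¹ F` is numerically the determinant of an element of the subgroup -/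
theorem num_multiple {Y X : T.S} (φ : T.E Y X) (M : AddSubgroup (T.K X))
    (h0 : ∀ N : T.Pic X, ∃ m : ℕ, 0 < m ∧ T.line X (m • N) ∈ M)
    (h1 : ∃ x : T.Pt X, T.sky X x ∈ M) (F : T.K X) :
    ∃ m : ℕ, 0 < m ∧ ∃ F' ∈ M, T.NumTrivial Y
      (m • T.det Y ((T.map φ).symm F) - T.det Y ((T.map φ).symm F')) := by
  obtain ⟨m, hm, hN⟩ := h0 (T.det X F)
  obtain ⟨x, hx⟩ := h1
  have hO : T.line X 0 ∈ M := by
    obtain ⟨n, _, hn⟩ := h0 0
    rwa [nsmul_zero] at hn
  let F₁ : T.K X := (m * T.rk X F) • T.line X 0 + (T.line X (m • T.det X F) - T.line X 0)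
  let j : ℤ := T.chi X (T.line X 0) (m • F - F₁)
  let F' : T.K X := F₁ + j • T.sky X x
  have hF₁ : F₁ ∈ M := M.add_mem (M.zsmul_mem hO _) (M.sub_mem hN hO)
  have hF' : F' ∈ M := M.add_mem hF₁ (M.zsmul_mem hx _)
  have hr : T.rk X (m • F - F') = 0 := by
    simp only [F', F₁, map_sub, map_add, map_nsmul, map_zsmul, T.rk_line, T.rk_sky]
    simp
  have hd : T.det X (m • F - F') = 0 := by
    simp only [F', F₁, map_sub, map_add, map_nsmul, map_zsmul, T.det_line, T.det_sky]
    simp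
  have hc : T.chi X (T.line X 0) (m • F - F') = 0 := by
    have : m • F - F' = (m • F - F₁) - j • T.sky X x := by simp only [F']; abel
    rw [this, map_sub, map_zsmul, T.chi_sky]
    simp [j]
  have hall : ∀ G, T.chi X G (m • F - F') = 0 := by
    intro G
    rw [T.rr, hr, hd, hc]
    simp
  refine ⟨m, hm, F', hF', ?_⟩
  have hY : ∀ H, T.chi Y H ((T.map φ).symm (m • F - F')) = 0 := by
    intro H
    rw [← T.chi_map φ, AddEquiv.apply_symm_apply, hall]
  obtain ⟨y⟩ := T.nonempty Y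
  have hrY : T.rk Y ((T.map φ).symm (m • F - F')) = 0 := by rw [← sky_chi _ y, hY]
  have hdet : m • T.det Y ((T.map φ).symm F) - T.det Y ((T.map φ).symm F')
      = T.det Y ((T.map φ).symm (m • F - F')) := by
    rw [map_sub, map_nsmul, map_sub, map_nsmul]
  rw [hdet]
  intro L
  have := hY (T.line Y L)
  rw [T.rr, hrY, hY, T.det_line, T.dot_comm] at this
  linarith

end Pool.Agent.Lib.Enr905
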