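import Pool.Agent.Lib.Enr905.Surf

/-!
# The category of `O_X`-modules is `k`-linear
-/

open CategoryTheory AlgebraicGeometry Opposite

namespace Pool.Agent.Lib.Enr905

variable {k : Type} [Field k]

/-- scalars as functions -/
noncomputable def Surf.scal (S : Surf k) (U : S.X.Opens) : k →+* Γ(S.X, U) :=
  ((Scheme.ΓSpecIso (CommRingCat.of k)).inv ≫ S.f.appTop ≫
    S.X.presheaf.map (homOfLE (le_top : U ≤ ⊤)).op).hom

theorem Surf.scal_map (S : Surf k) {U V : S.X.Opens} (i : U ⟶ V) (r : k) :
    S.X.presheaf.map i.op (S.scal V r) = S.scal U r := by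
  simp only [Surf.scal, CommRingCat.hom_comp, RingHom.comp_apply]
  rw [← CommRingCat.comp_apply, ← Functor.map_comp]
  rfl

/-- multiplication by a scalar -/
noncomputable def Surf.mulBy (S : Surf k) (r : k) (M : S.X.Modules) : M ⟶ M :=
  ⟨PresheafOfModules.homMk
    { app := fun U => M.smul (S.scal U.unop r)
      naturality := by
        intro U V i
        have := Scheme.Modules.map_comp_smul (M := M) i.unop (S.scal U.unop r)
        rw [S.scal_map] at this
        exact this.symm }
    (by
      intro U r' m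
      let m' : Γ(M, U.unop) := m
      let r'' : Γ(S.X, U.unop) := r'
      exact smul_comm (S.scal U.unop r) r'' m')⟩

theorem Surf.mulBy_app (S : Surf k) (r : k) (M : S.X.Modules) (U : S.X.Opens) (m : Γ(M, U)) :
    (S.mulBy r M).app U m = S.scal U r • m := rfl

/-- the linear structure -/
@[reducible]
noncomputable def Surf.linear (S : Surf k) : Linear k S.X.Modules where
  homModule M N :=
    { smul := fun r φ => φ ≫ S.mulBy r N
      one_smul := by
        intro φ
        change φ ≫ S.mulBy 1 N = φ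
        ext U m
        simp [Surf.mulBy_app]
      mul_smul := by
        intro r s φ
        change φ ≫ S.mulBy (r * s) N = (φ ≫ S.mulBy s N) ≫ S.mulBy r N
        ext U m
        simp only [Scheme.Modules.Hom.comp_app, AddCommGrpCat.hom_comp, AddMonoidHom.coe_comp,
          Function.comp_apply, Surf.mulBy_app, map_mul, mul_smul]
      smul_zero := by
        intro r
        change 0 ≫ S.mulBy r N = 0
        simp
      smul_add := by
        intro r φ ψ
        change (φ + ψ) ≫ S.mulBy r N = φ ≫ S.mulBy r N + ψ ≫ S.mulBy r N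
        simp
      add_smul := by
        intro r s φ
        change φ ≫ S.mulBy (r + s) N = φ ≫ S.mulBy r N + φ ≫ S.mulBy s N
        ext U m
        simp [Surf.mulBy_app, add_smul]
      zero_smul := by
        intro φ
        change φ ≫ S.mulBy 0 N = 0
        ext U m
        simp [Surf.mulBy_app] }
  smul_comp := by
    intro M N P r φ ψ
    change (φ ≫ S.mulBy r N) ≫ ψ = (φ ≫ ψ) ≫ S.mulBy r P
    ext U m
    simp [Surf.mulBy_app]
  comp_smul := by
    intro M N P φ r ψ
    change φ ≫ (ψ ≫ S.mulBy r P) = (φ ≫ ψ) ≫ S.mulBy r P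
    simp

theorem Surf.sec_smul (S : Surf k) (U : S.X.Opens) (N : S.X.Modules) (r : k)
    (y : (S.sec U).obj N) :
    r • y = ((U.ι.appIso ((U.ι ≫ S.f) ⁻¹ᵁ ⊤)).inv ((U.ι ≫ S.f).app ⊤
      ((Spec (CommRingCat.of k)).presheaf.map (𝟙 _) ((Scheme.ΓSpecIso (.of k)).inv r))) •
        (show Γ(N, U.ι ''ᵁ ((U.ι ≫ S.f) ⁻¹ᵁ ⊤)) from y)) := rfl

theorem Surf.scal_sec (S : Surf k) (U : S.X.Opens) (r : k) :
    S.scal (U.ι ''ᵁ ((U.ι ≫ S.f) ⁻¹ᵁ ⊤)) r =
      (U.ι.appIso ((U.ι ≫ S.f) ⁻¹ᵁ ⊤)).inv ((U.ι ≫ S.f).app ⊤
        ((Spec (CommRingCat.of k)).presheaf.map (𝟙 _) ((Scheme.ΓSpecIso (.of k)).inv r))) := by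
  unfold Surf.scal
  simp only [CommRingCat.hom_comp, RingHom.comp_apply, CategoryTheory.Functor.map_id]
  generalize (Scheme.ΓSpecIso (.of k)).inv r = z
  simp [Scheme.Hom.comp_app]
  rfl

/-- there is a (unique) `k`-linear structure on the category of `O_X`-modules for which the sections
over all open subsets are `k`-linear -/
theorem Surf.exists_linear (S : Surf k) :
    ∃ _ : Linear k S.X.Modules, ∀ U : S.X.Opens, (S.sec U).Linear k := by
  refine ⟨S.linear, fun U => ?_⟩
  let _ := S.linear
  refine { map_smul := ?_ }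
  intro M N φ r
  refine ModuleCat.hom_ext (LinearMap.ext fun x => ?_)
  change _ = r • ((S.sec U).map φ).hom x
  rw [S.sec_smul, ← S.scal_sec]
  rfl

/-- the `k`-linear structure on the category of `O_X`-modules -/
@[instance_reducible, instance]
noncomputable def Surf.lin (S : Surf k) : Linear k S.X.Modules := S.exists_linear.choose

end Pool.Agent.Lib.Enr905
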