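import Mathlib

/-!
# Smooth projective surfaces over a field
-/

open CategoryTheory AlgebraicGeometry

namespace Pool.Agent.Lib.Enr905

/-- Smooth projective (that is: smooth and proper) connected surfaces over a field `k`. -/
structure Surf (k : Type) [Field k] where
  /-- the scheme -/
  X : Scheme.{0}
  /-- the structure morphism -/
  f : X ⟶ Spec (CommRingCat.of k)
  [smooth : SmoothOfRelativeDimension 2 f]
  [proper : IsProper f]
  [conn : ConnectedSpace X]

variable {k : Type} [Field k]

/-- the sections of `O_X`-modules over an open subset `U`, a `k`-module by the structure morphism -/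
noncomputable def Surf.sec (S : Surf k) (U : S.X.Opens) : S.X.Modules ⥤ ModuleCat k :=
  Scheme.Modules.restrictFunctor U.ι ⋙ Scheme.Modules.pushforward (U.ι ≫ S.f) ⋙
    moduleSpecΓFunctor (R := CommRingCat.of k)

end Pool.Agent.Lib.Enr905
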