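import Pool.Agent.Lib.Enr905.Enriques

/-!
# The published theorems

* `PicTheory`, `NumTheory`, `DualTheory`: classical facts on smooth projective surfaces.
* `EnriquesFacts`: facts on Enriques surfaces in characteristic 2.
* `LiftData`: a lift of a surface to characteristic 0. `MatsusakaMumford`.
* `ObTheory`, `DefTheory`: the deformation theory of derived equivalences along a lift.
* `TateOort`: the scheme `Pic^τ` of a lift.
-/

open CategoryTheory AlgebraicGeometry IsLocalRing

namespace Pool.Agent.Lib.Enr905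

section
variable {k : Type} [Field k] (S : Surf k)

/-- the rational points -/
def Surf.Pt := {x : Spec (CommRingCat.of k) ⟶ S.X // x ≫ S.f = 𝟙 _}

/-- the skyscraper sheaf of a point -/
noncomputable def Surf.skyD (x : S.Pt) : S.D :=
  S.single.obj ((Scheme.Modules.pushforward x.1).obj
    (SheafOfModules.unit (Spec (CommRingCat.of k)).ringCatSheaf))

/-- ample line bundles (criterion of Nakai and Moishezon) -/
def Surf.IsAmple (L : S.Line) : Prop :=
  0 < S.inter L L ∧ ∀ C : S.Line, ¬ Nonempty (C.D ≅ S.OD) → (∃ s : S.OD ⟶ C.D, s ≠ 0) →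
    0 < S.inter L C

/-- functions on `D^b(X)` that are additive on the distinguished triangles -/
structure Surf.Additive {M : Type*} [AddCommGroup M] (f : S.Db → M) : Prop where
  iso : ∀ A B : S.Db, Nonempty (A ≅ B) → f A = f B
  tri : ∀ T : Pretriangulated.Triangle S.Db, S.Dist T → f T.obj₂ = f T.obj₁ + f T.obj₃

/-- the group `Ext^2(A, A)` -/
def Surf.E2 (A : S.Db) : Type 1 := A ⟶ A⟦(2 : ℤ)⟧

@[instance_reducible, instance]
noncomputable def Surf.grpE2 (A : S.Db) : AddCommGroup (S.E2 A) :=
  (inferInstance : AddCommGroup (A ⟶ A⟦(2 : ℤ)⟧))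

@[instance_reducible, instance]
noncomputable def Surf.modE2 (A : S.Db) : Module k (S.E2 A) :=
  (inferInstance : Module k (A ⟶ A⟦(2 : ℤ)⟧))

/-- the group `H^2(X, O_X)` -/
abbrev Surf.H2 : Type 1 := S.E 2 S.OD S.OD

end

/-- Line bundles on smooth projective surfaces over an algebraically closed field. -/
structure PicTheory (k : Type) [Field k] where
  /-- the structure sheaf, as a line bundle -/
  one : ∀ S : Surf k, S.Line
  one_iso : ∀ S : Surf k, Nonempty ((one S).D ≅ S.OD)
  /-- the canonical bundle (it satisfies Serre duality) -/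
  w : ∀ S : Surf k, S.Line
  w_can : ∀ S : Surf k, S.IsCan (w S)
  /-- the Picard group, written additively -/
  Pic : Surf k → Type 1
  [grp : ∀ S, AddCommGroup (Pic S)]
  /-- the class of a line bundle -/
  cl : ∀ {S : Surf k}, S.Line → Pic S
  cl_surj : ∀ {S : Surf k} (D : Pic S), ∃ L : S.Line, cl L = D
  cl_eq : ∀ {S : Surf k} (L M : S.Line), cl L = cl M ↔ Nonempty (L.L ≅ M.L)
  cl_one : ∀ S : Surf k, cl (one S) = 0
  cl_w : ∀ {S : Surf k} (L : S.Line), S.IsCan L → cl L = cl (w S)
  /-- the intersection form -/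
  dot : ∀ {S : Surf k}, Pic S → Pic S → ℤ
  dot_cl : ∀ {S : Surf k} (L M : S.Line), dot (cl L) (cl M) = S.inter L M
  dot_add : ∀ {S : Surf k} (D D' E : Pic S), dot (D + D') E = dot D E + dot D' E
  dot_comm : ∀ {S : Surf k} (D E : Pic S), dot D E = dot E D
  /-- Riemann-Roch for line bundles -/
  rr_line : ∀ {S : Surf k} (L : S.Line),
    2 * (S.chi S.OD L.D - S.chi S.OD S.OD) = dot (cl L) (cl L) - dot (cl (w S)) (cl L)
  /-- smooth proper surfaces are projective (Zariski); ample line bundles satisfy the criterion -/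
  exists_ample : ∀ S : Surf k, ∃ L : S.Line, S.IsAmple L
  /-- a nonzero morphism of numerically equivalent line bundles is an isomorphism -/
  iso_of_num : ∀ {S : Surf k} (L M : S.Line) (s : L.L ⟶ M.L), s ≠ 0 →
    (∀ D, dot (cl L) D = dot (cl M) D) → IsIso s

attribute [instance] PicTheory.grp

/-- Classical facts on smooth projective surfaces over an algebraically closed field. -/
structure NumTheory (k : Type) [Field k] extends PicTheory k where
  /-- the Euler form is additive -/
  chi_left : ∀ (S : Surf k) (B : S.Db), S.Additive fun A => S.chi (S.ι.obj A) (S.ι.obj B)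
  chi_right : ∀ (S : Surf k) (A : S.Db), S.Additive fun B => S.chi (S.ι.obj A) (S.ι.obj B)
  /-- the rank -/
  rk : ∀ {S : Surf k}, S.Db → ℤ
  rk_add : ∀ S : Surf k, S.Additive (rk (S := S))
  rk_line : ∀ {S : Surf k} (L : S.Line), rk L.L = 1
  /-- the determinant -/
  det : ∀ {S : Surf k}, S.Db → Pic S
  det_add : ∀ S : Surf k, S.Additive (det (S := S))
  det_line : ∀ {S : Surf k} (L : S.Line), det L.L = cl L
  /-- there are rational points -/
  pt : ∀ S : Surf k, Nonempty S.Pt
  /-- skyscraper sheaves are coherent -/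
  sky : ∀ {S : Surf k}, S.Pt → S.Db
  sky_iso : ∀ {S : Surf k} (x : S.Pt), Nonempty (S.ι.obj (sky x) ≅ S.skyD x)
  rk_sky : ∀ {S : Surf k} (x : S.Pt), rk (sky x) = 0
  det_sky : ∀ {S : Surf k} (x : S.Pt), det (sky x) = 0
  chi_sky : ∀ {S : Surf k} (x : S.Pt), S.chi S.OD (S.ι.obj (sky x)) = 1
  /-- Hirzebruch-Riemann-Roch for the Euler form -/
  rr : ∀ {S : Surf k} (G F : S.Db), S.chi (S.ι.obj G) (S.ι.obj F)
    = rk G * S.chi S.OD (S.ι.obj F) + rk F * S.chi S.OD (S.ι.obj G) - dot (det G) (det F)
      + rk F * dot (cl (w S)) (det G) - rk G * rk F * S.chi S.OD S.OD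
  /-- the order of the canonical bundle is invariant under exact equivalences (Serre functors) -/
  order : ∀ Y X : Surf k, Nonempty (Surf.Equiv Y X) →
    ∀ n : ℕ, n • cl (w Y) = 0 ↔ n • cl (w X) = 0

/-- Serre duality and traces on smooth projective surfaces over an algebraically closed field. -/
structure DualTheory (k : Type) [Field k] extends NumTheory k where
  /-- skyscraper sheaves are simple -/
  sky_end : ∀ {S : Surf k} (x : S.Pt) (f : sky x ⟶ sky x), ∃ r : k, f = r • 𝟙 _
  /-- the value at `x` of a section `ω → O` of the dual `∧² T` of the canonical bundle, in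
  `∧² T_x = Ext^2(k_x, k_x)` -/
  ev : ∀ {S : Surf k} (x : S.Pt), ((w S).L ⟶ (one S).L) → S.E2 (sky x)
  ev_iso : ∀ {S : Surf k} (x : S.Pt) (s : (w S).L ⟶ (one S).L), IsIso s → ev x s ≠ 0
  /-- the trace `Ext^2(A, A) → H^2(X, O_X)` -/
  tr : ∀ {S : Surf k} (A : S.Db), S.E2 A →ₗ[k] S.H2
  /-- Serre duality: if `ω` is trivial, the pairing `Hom(A, A) × Ext^2(A, A) → H^2(X, O_X)` is perfect -/
  tr_dual : ∀ {S : Surf k}, cl (w S) = 0 → ∀ (A : S.Db) (g : A ⟶ A⟦(2 : ℤ)⟧), g ≠ 0 →
    ∃ f : A ⟶ A, tr A (f ≫ g) ≠ 0

section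
variable {k : Type} [Field k] (N : DualTheory k)

/-- the canonical bundle is trivial -/
def DualTheory.Triv (S : Surf k) : Prop := N.cl (N.w S) = 0

/-- the sections of the dual `∧² T` of the canonical bundle -/
def DualTheory.Sec (S : Surf k) : Type 1 := (N.w S).L ⟶ (N.one S).L

/-- a section that vanishes -/
def DualTheory.Zero {S : Surf k} (s : N.Sec S) : Prop :=
  s = (0 : (N.w S).L ⟶ (N.one S).L)

/-- a section that trivialises the canonical bundle -/
def DualTheory.NonZero {S : Surf k} (s : N.Sec S) : Prop :=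
  IsIso (C := S.Db) s

/-- the images `P_x` of the skyscraper sheaves -/
def DualTheory.P {Y X : Surf k} (φ : Surf.Equiv Y X) (x : Y.Pt) : X.Db := φ.e.functor.obj (N.sky x)

/-- the trace in `H^2(X, O_X)` of the value at `x` of a section, in
`∧² T_x = Ext^2(k_x, k_x) = Ext^2(P_x, P_x)` -/
noncomputable def DualTheory.trEv {Y X : Surf k} (φ : Surf.Equiv Y X) (x : Y.Pt) (s : N.Sec Y) :
    X.H2 :=
  N.tr (N.P φ x) (φ.e.functor.map (N.ev x s) ≫ (φ.e.functor.commShiftIso (2 : ℤ)).hom.app _)

end

/-- A lift of `X`: a smooth proper scheme over a complete discrete valuation ring `V` of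
characteristic 0 with residue field `k` and special fibre `X`; its geometric generic fibre `gen`. -/
structure LiftData {k : Type} [Field k] (X : Surf k) where
  /-- the base -/
  V : Type
  [ring : CommRing V]
  [dom : IsDomain V]
  [dvr : IsDiscreteValuationRing V]
  [complete : IsAdicComplete (maximalIdeal V) V]
  [char : CharZero V]
  /-- the residue map -/
  res : V →+* k
  res_surj : Function.Surjective res
  /-- the total space -/
  Z : Scheme.{0}
  /-- the structure morphism -/
  p : Z ⟶ Spec (CommRingCat.of V)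
  [smooth : SmoothOfRelativeDimension 2 p]
  [proper : IsProper p]
  /-- the special fibre -/
  i : X.X ⟶ Z
  special : IsPullback i X.f p (Spec.map (CommRingCat.ofHom res))
  /-- the geometric generic fibre -/
  gen : Surf (AlgebraicClosure (FractionRing V))
  /-- the geometric generic fibre -/
  j : gen.X ⟶ Z
  generic : IsPullback j gen.f p
    (Spec.map (CommRingCat.ofHom (algebraMap V (AlgebraicClosure (FractionRing V)))))

attribute [instance] LiftData.ring LiftData.dom LiftData.dvr LiftData.complete LiftData.char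
  LiftData.smooth LiftData.proper

/-- `Specializes res A Y`: there is a smooth proper scheme over a discrete valuation ring `W`, finite
over `V`, with geometric generic fibre `A` and special fibre `Y`. -/
structure Specializes {k V : Type} [Field k] [CommRing V] [IsDomain V] (res : V →+* k)
    (A : Surf (AlgebraicClosure (FractionRing V))) (Y : Surf k) where
  /-- the base -/
  W : Type
  [ring : CommRing W]
  [dom : IsDomain W]
  [dvr : IsDiscreteValuationRing W]
  [alg : Algebra V W]
  [fin : Module.Finite V W]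
  /-- the embedding in the algebraic closure -/
  emb : W →+* AlgebraicClosure (FractionRing V)
  emb_inj : Function.Injective emb
  emb_alg : emb.comp (algebraMap V W) = algebraMap V (AlgebraicClosure (FractionRing V))
  /-- the residue map -/
  resW : W →+* k
  resW_alg : resW.comp (algebraMap V W) = res
  /-- the total space -/
  Z : Scheme.{0}
  /-- the structure morphism -/
  p : Z ⟶ Spec (CommRingCat.of W)
  [smooth : SmoothOfRelativeDimension 2 p]
  [proper : IsProper p]
  /-- the special fibre -/
  i : Y.X ⟶ Z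
  special : IsPullback i Y.f p (Spec.map (CommRingCat.ofHom resW))
  /-- the geometric generic fibre -/
  j : A.X ⟶ Z
  generic : IsPullback j A.f p (Spec.map (CommRingCat.ofHom emb))

/-- Matsusaka-Mumford 1964, and the uniqueness of the minimal model of a surface that is not ruled:
if two surfaces with numerically trivial canonical bundles are specializations of isomorphic surfaces
in characteristic 0, they are isomorphic. -/
def MatsusakaMumford (k : Type) [Field k] : Prop :=
  ∀ (V : Type) [CommRing V] [IsDomain V] [IsDiscreteValuationRing V]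
    [IsAdicComplete (maximalIdeal V) V] [CharZero V] (res : V →+* k),
    Function.Surjective res → ∀ (A B : Surf (AlgebraicClosure (FractionRing V))) (X Y : Surf k),
    Nonempty (Specializes res A X) → Nonempty (Specializes res B Y) → A.Iso B →
    (∃ w, X.IsCan w ∧ ∀ L, X.inter w L = 0) → (∃ w, Y.IsCan w ∧ ∀ L, Y.inter w L = 0) → X.Iso Y

/-- Facts on Enriques surfaces in characteristic 2 (Bombieri-Mumford 1976). -/
structure EnriquesFacts {k : Type} [Field k] (N : DualTheory k) : Prop where
  /-- `χ(O_X) = 1` -/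
  chi_one : ∀ X, IsEnriques k X → X.chi X.OD X.OD = 1
  /-- `ω_X` is 2-torsion -/
  can_two : ∀ X, IsEnriques k X → N.cl (N.w X) + N.cl (N.w X) = 0
  /-- `Num(X)` is unimodular -/
  unimod : ∀ X, IsEnriques k X → ∀ D : N.Pic X, (∀ L, (2 : ℤ) ∣ N.dot D L) →
    ∃ M : N.Pic X, ∀ L, N.dot D L = 2 * N.dot M L
  /-- if `ω_X` is trivial, `Pic^τ` has no nontrivial points (it is `μ₂` or `α₂`) -/
  pic_tau : ∀ X, IsEnriques k X → N.Triv X → ∀ D : N.Pic X, (∀ L, N.dot D L = 0) → D = 0
  /-- the geometric generic fibre of a lift of an Enriques surface is an Enriques surface -/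
  gen_enr : ∀ X, IsEnriques k X → ∀ l : LiftData X, IsEnriques _ l.gen

section
variable (V : Type) [CommRing V] [IsLocalRing V]

/-- the power `n + 1` of the maximal ideal -/
def pw (n : ℕ) : Ideal V := maximalIdeal V ^ (n + 1)

variable {V} in
theorem pw_le {n m : ℕ} (h : n ≤ m) : pw V m ≤ pw V n :=
  Ideal.pow_le_pow_right (Nat.succ_le_succ h)

/-- the ring `V_n`, `V` modulo the power `n + 1` of the maximal ideal -/
def Vn (n : ℕ) : ModuleCat.{0} V := ModuleCat.of V (V ⧸ pw V n)

/-- the residue map of `V_n` -/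
def vnMap (n : ℕ) : Vn V n ⟶ Vn V 0 := ModuleCat.ofHom (Submodule.factor (pw_le (Nat.zero_le n)))

/-- the kernel of `V_m → V_n` -/
def Ker (n m : ℕ) : ModuleCat.{0} V :=
  ModuleCat.of V (↥(pw V n) ⧸ (pw V m).submoduleOf (pw V n))

variable {V} in
theorem ker_le (n : ℕ) {m m' : ℕ} (h : m' ≤ m) :
    (pw V m).submoduleOf (pw V n) ≤ (pw V m').submoduleOf (pw V n) :=
  Submodule.comap_mono (pw_le h)

/-- restriction of the kernels -/
def kerMap (n : ℕ) {m m' : ℕ} (h : m' ≤ m) : Ker V n m ⟶ Ker V n m' :=
  ModuleCat.ofHom (Submodule.factor (ker_le n h))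

/-- additive functors from `V`-modules to abelian groups -/
structure ModFun where
  /-- the values -/
  obj : ModuleCat.{0} V → Type 1
  [grp : ∀ M, AddCommGroup (obj M)]
  /-- the maps -/
  map : ∀ {M N : ModuleCat.{0} V}, (M ⟶ N) → obj M → obj N
  map_add : ∀ {M N : ModuleCat.{0} V} (f : M ⟶ N) (x y : obj M), map f (x + y) = map f x + map f y
  map_id : ∀ {M : ModuleCat.{0} V} (x : obj M), map (𝟙 M) x = x
  map_comp : ∀ {M N P : ModuleCat.{0} V} (f : M ⟶ N) (g : N ⟶ P) (x : obj M),
    map (f ≫ g) x = map g (map f x)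

attribute [instance] ModFun.grp

variable {V} in
/-- an element that vanishes -/
def ModFun.Zero (F : ModFun V) {M : ModuleCat.{0} V} (x : F.obj M) : Prop := x = 0

/-- `V_m → V_n` is a square zero extension -/
def Sq (n m : ℕ) : Prop := n < m ∧ m ≤ 2 * n + 1

end

section
variable {k : Type} [Field k] {X : Surf k} (l : LiftData X)

/-- the ideal of `V_n` -/
def LiftData.I (n : ℕ) : Ideal l.V := pw l.V n

/-- the ring `V_n`, as a module -/
def LiftData.Vn (n : ℕ) : ModuleCat.{0} l.V := Enr905.Vn l.V n

/-- the residue map of `V_n` -/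
def LiftData.vnMap (n : ℕ) : l.Vn n ⟶ l.Vn 0 := Enr905.vnMap l.V n

/-- the kernel of `V_m → V_n` -/
def LiftData.Ker (n m : ℕ) : ModuleCat.{0} l.V := Enr905.Ker l.V n m

/-- restriction of the kernels -/
def LiftData.kerMap (n : ℕ) {m m' : ℕ} (h : m' ≤ m) : l.Ker n m ⟶ l.Ker n m' :=
  Enr905.kerMap l.V n h

end

/-- The deformations of the exact equivalences `D^b(Y) → D^b(X)` along a lift `l` of `X`, and their
obstructions (Orlov 1997; Lieblich 2006, Huybrechts-Thomas 2010). `V_n` is `V` modulo the power `n + 1` of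
the maximal ideal, `X_n` is the lift over `V_n`. -/
structure ObTheory {k : Type} [Field k] (N : DualTheory k) {X : Surf k} (l : LiftData X) where
  /-- `OmTriv n`: the relative canonical bundle of `X_n` over `V_n` is trivial -/
  OmTriv : ℕ → Prop
  /-- restriction of the relative canonical bundle to `X` -/
  omTriv_special : ∀ n, OmTriv n → N.Triv X
  /-- the extensions of an equivalence over `V_n`: a smooth proper `Y_n` over `V_n` with special fibre `Y`
  and a relative Fourier-Mukai equivalence of `Y_n` and `X_n` -/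
  Ext : ∀ {Y : Surf k}, Surf.Equiv Y X → ℕ → Type 1
  /-- the equivalence itself (Orlov: it is a Fourier-Mukai equivalence) -/
  first : ∀ {Y : Surf k} (φ : Surf.Equiv Y X), Ext φ 0
  /-- restriction -/
  restr : ∀ {Y : Surf k} {φ : Surf.Equiv Y X} {n : ℕ}, Ext φ (n + 1) → Ext φ n
  /-- the relative canonical bundle of `Y_n` is trivial -/
  YTriv : ∀ {Y : Surf k} {φ : Surf.Equiv Y X} {n : ℕ}, Ext φ n → Prop
  /-- compatibility with the relative Serre functors -/
  serre : ∀ {Y : Surf k} {φ : Surf.Equiv Y X} {n : ℕ} (e : Ext φ n), YTriv e → OmTriv n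
  /-- the functor `I ↦ H^0(Y_n, ∧² T ⊗ I)`, `T` the relative tangent bundle of `Y_n` over `V_n` -/
  H0 : ∀ {Y : Surf k} {φ : Surf.Equiv Y X} {n : ℕ}, Ext φ n → ModFun l.V
  /-- `H^0(Y_n, ∧² T ⊗ V_0) = H^0(Y, ∧² T) = Hom(ω_Y, O_Y)` -/
  spec : ∀ {Y : Surf k} {φ : Surf.Equiv Y X} {n : ℕ} (e : Ext φ n), (H0 e).obj (l.Vn 0) → N.Sec Y
  spec_inj : ∀ {Y : Surf k} {φ : Surf.Equiv Y X} {n : ℕ} (e : Ext φ n) (s : (H0 e).obj (l.Vn 0)),
    N.Zero (spec e s) → (H0 e).Zero s
  /-- Nakayama: a section of `∧² T` on `Y_n` that is an isomorphism `ω_Y → O_Y` modulo the maximal ideal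
  trivialises the relative canonical bundle of `Y_n` -/
  nakayama : ∀ {Y : Surf k} {φ : Surf.Equiv Y X} {n : ℕ} (e : Ext φ n) (s : (H0 e).obj (l.Vn n)),
    N.NonZero (spec e ((H0 e).map (l.vnMap n) s)) → YTriv e
  /-- the obstruction to extend `e` from `V_n` to `V_m`, if `V_m → V_n` is a square zero extension, with
  kernel `I = Ker n m`: it is in `Ext^2(P, P ⊗ I)` locally on `Y_n`, and a section of
  `Ext^2_p(P, P) ⊗ I = ∧² T ⊗ I`, because the lifts of an affine open subscheme of `Y_n` are isomorphic -/
  ob : ∀ {Y : Surf k} {φ : Surf.Equiv Y X} {n : ℕ} (e : Ext φ n) (m : ℕ), Sq n m →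
    (H0 e).obj (l.Ker n m)
  /-- obstructions are functorial in the square zero extension -/
  ob_map : ∀ {Y : Surf k} {φ : Surf.Equiv Y X} {n : ℕ} (e : Ext φ n) (m m' : ℕ) (h : Sq n m)
    (h' : Sq n m') (hm : m' ≤ m), (H0 e).map (l.kerMap n hm) (ob e m h) = ob e m' h'
  /-- if the obstruction to extend `e` over `V_{n+1}` vanishes, then `Y_n` extends over `V_{n+1}` (to the
  moduli space of simple complexes) and the kernel extends as a twisted complex, with a class `β` in the
  kernel of `Br(Y_{n+1}) → Br(Y_n)`, a quotient of `H^2(Y, O_Y)` by a subgroup `B`, the class of some `b`;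
  `β` is killed by the rank `χ(O_X, P_x)` of the twisted complex `Rp_* P`; if `β = 0` then `e` extends -/
  ext_of_ob : ∀ {Y : Surf k} {φ : Surf.Equiv Y X} {n : ℕ} (e : Ext φ n) (h : Sq n (n + 1)),
    (H0 e).Zero (ob e (n + 1) h) → ∃ (B : AddSubgroup Y.H2) (b : Y.H2),
      (∀ x : Y.Pt, X.chi X.OD (X.ι.obj (N.P φ x)) • b ∈ B) ∧ (b ∈ B → ∃ e' : Ext φ (n + 1), restr e' = e)

/-- The first obstruction, and the algebraisation of the deformations of the equivalences. -/
structure DefTheory {k : Type} [Field k] (N : DualTheory k) {X : Surf k} (l : LiftData X) extends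
    ObTheory N l where
  /-- the choice of a uniformizer -/
  unif : l.Ker 0 1 ≅ l.Vn 0
  /-- the obstruction to extend a line bundle from `X` to `X_1` -/
  obPic : N.Pic X →+ X.H2
  /-- the value at `x` of the first obstruction is the obstruction to extend `P_x` over `X_1`, and its
  trace is the obstruction to extend the determinant of `P_x` -/
  tr_ob : ∀ {Y : Surf k} (φ : Surf.Equiv Y X) (h : Sq 0 1) (x : Y.Pt),
    N.trEv φ x (spec (first φ) ((H0 (first φ)).map unif.hom (ob (first φ) 1 h))) =
      obPic (N.det (N.P φ x))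
  /-- the restrictions to `X` of the perfect complexes on the lift -/
  LiftOb : X.Db → Prop
  /-- a multiple of every line bundle on `X` extends to the lift (`ρ = b₂` on both fibres) -/
  liftOb_line : IsEnriques k X → ∀ D : N.Pic X, ∃ m : ℕ, 0 < m ∧
    ∀ L : X.Line, N.cl L = m • D → LiftOb L.L
  /-- the lift has a section -/
  liftOb_sky : ∃ x : X.Pt, LiftOb (N.sky x)
  /-- for a compatible system of extensions, the classes of the line bundles on `Y` that extend
  compatibly to all `Y_n` -/
  LiftPic : ∀ {Y : Surf k} {φ : Surf.Equiv Y X}, {c : ∀ n, Ext φ n // ∀ n, restr (c (n + 1)) = c n} →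
    AddSubgroup (N.Pic Y)
  /-- determinants of extended complexes extend -/
  liftPic_det : ∀ {Y : Surf k} {φ : Surf.Equiv Y X}
    (c : {c : ∀ n, Ext φ n // ∀ n, restr (c (n + 1)) = c n}) (F : X.Db), LiftOb F →
      N.det (φ.e.inverse.obj F) ∈ LiftPic c
  /-- Grothendieck existence: if an ample line bundle of `Y` extends, then the formal scheme and the
  kernel are algebraic, and give an equivalence on the geometric generic fibres -/
  algebraize : ∀ {Y : Surf k} {φ : Surf.Equiv Y X}
    (c : {c : ∀ n, Ext φ n // ∀ n, restr (c (n + 1)) = c n}),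
    (∃ L : Y.Line, N.cl L ∈ LiftPic c ∧ Y.IsAmple L) →
      ∃ B : Surf (AlgebraicClosure (FractionRing l.V)), Nonempty (Specializes l.res B Y) ∧
        Nonempty (Surf.Equiv B l.gen)

/-- `a` is the parameter of the scheme `Pic^τ` of a lift of an Enriques surface with trivial `ω_X`
(Tate-Oort 1970): this scheme is `Spec V[z] / (z² - a z)` with `a b = 2` for some `b`, and the relative
canonical bundle is the point `z = a`, so that it is trivial over `V_n` if and only if `a` is in the power
`n + 1` of the maximal ideal. -/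
def TateOort {k : Type} [Field k] {N : DualTheory k} {X : Surf k} {l : LiftData X}
    (d : DefTheory N l) (a : l.V) : Prop :=
  (∃ b, a * b = 2) ∧ ∀ n, d.OmTriv n → a ∈ l.I n

end Pool.Agent.Lib.Enr905
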